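import Mathlib

/-!
# The Hausdorff-Bernstein-Widder theorem

A completely monotone function on `[0, ∞)` which is `1` at `0` is the Laplace transform of a
probability measure on `[0, ∞)`.
-/

set_option autoImplicit false

namespace Pool.Agent.Lib.MP_fe925f_an

open MeasureTheory Filter Topology Set Polynomial
open scoped unitInterval

noncomputable section

/-- `F 0` is completely monotone on `[0, ∞)`, with `F n = (-1)^n (F 0)^(n)`. -/
structure IsCM (F : ℕ → ℝ → ℝ) : Prop where
  nonneg : ∀ n x, 0 ≤ x → 0 ≤ F n x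
  hasDeriv : ∀ n x, 0 ≤ x → HasDerivAt (F n) (-(F (n + 1) x)) x

namespace IsCM

variable {F : ℕ → ℝ → ℝ}

lemma anti (hF : IsCM F) (n : ℕ) : AntitoneOn (F n) (Ici 0) := by
  apply antitoneOn_of_deriv_nonpos (convex_Ici 0)
  · intro x hx
    exact (hF.hasDeriv n x hx).continuousAt.continuousWithinAt
  · intro x hx
    rw [interior_Ici] at hx
    exact (hF.hasDeriv n x (le_of_lt hx)).differentiableAt.differentiableWithinAt
  · intro x hx
    rw [interior_Ici] at hx
    rw [(hF.hasDeriv n x (le_of_lt hx)).deriv]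
    have := hF.nonneg (n + 1) x (le_of_lt hx)
    linarith

lemma diff (hF : IsCM F) {δ : ℝ} (hδ : 0 ≤ δ) : IsCM (fun n x => F n x - F n (x + δ)) where
  nonneg n x hx := by
    have := hF.anti n (mem_Ici.2 hx) (mem_Ici.2 (add_nonneg hx hδ)) (by linarith)
    simpa using this
  hasDeriv n x hx := by
    have h1 := hF.hasDeriv n x hx
    have h2 : HasDerivAt (fun y => F n (y + δ)) (-(F (n + 1) (x + δ))) x := by
      have := (hF.hasDeriv n (x + δ) (add_nonneg hx hδ)).comp_add_const x δ
      simpa using this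
    have := h1.sub h2
    have h3 : -(F (n + 1) x - F (n + 1) (x + δ)) = -(F (n + 1) x) - -(F (n + 1) (x + δ)) := by ring
    rw [h3]
    exact this

end IsCM

/-- The linear functional on polynomials with given moments. -/
def momFun (a : ℕ → ℝ) : ℝ[X] →ₗ[ℝ] ℝ :=
  Polynomial.lsum (fun n => (a n) • (LinearMap.id : ℝ →ₗ[ℝ] ℝ))

lemma momFun_monomial (a : ℕ → ℝ) (n : ℕ) (c : ℝ) : momFun a (monomial n c) = a n * c := by
  simp [momFun, Polynomial.lsum_apply, Polynomial.sum_monomial_index]

lemma momFun_X_pow (a : ℕ → ℝ) (n : ℕ) : momFun a (X ^ n) = a n := by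
  rw [← Polynomial.monomial_one_right_eq_X_pow, momFun_monomial, mul_one]

lemma momFun_X_mul (a : ℕ → ℝ) (p : ℝ[X]) :
    momFun a (X * p) = momFun (fun n => a (n + 1)) p := by
  induction p using Polynomial.induction_on' with
  | add p q hp hq => rw [mul_add, map_add, map_add, hp, hq]
  | monomial n c => rw [Polynomial.X_mul_monomial, momFun_monomial, momFun_monomial]

lemma momFun_X_pow_mul (a : ℕ → ℝ) (k : ℕ) (p : ℝ[X]) :
    momFun a (X ^ k * p) = momFun (fun n => a (n + k)) p := by
  induction k generalizing a p with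
  | zero => simp
  | succ k ih =>
    rw [pow_succ, mul_assoc, ih, momFun_X_mul]
    have : (fun n => a (n + 1 + k)) = (fun n => a (n + (k + 1))) := by
      funext n
      congr 1
      ring
    rw [this]

lemma momFun_sub (a b : ℕ → ℝ) (p : ℝ[X]) :
    momFun (fun n => a n - b n) p = momFun a p - momFun b p := by
  induction p using Polynomial.induction_on' with
  | add p q hp hq => rw [map_add, map_add, map_add, hp, hq]; ring
  | monomial n c => rw [momFun_monomial, momFun_monomial, momFun_monomial]; ring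

lemma momFun_one_sub_pow_nonneg (m : ℕ) {δ : ℝ} (hδ : 0 ≤ δ) :
    ∀ (F : ℕ → ℝ → ℝ), IsCM F → ∀ x, 0 ≤ x →
      0 ≤ momFun (fun n => F 0 (x + n * δ)) ((1 - X) ^ m) := by
  induction m with
  | zero =>
    intro F hF x hx
    rw [pow_zero, ← pow_zero X, momFun_X_pow]
    exact hF.nonneg 0 _ (by positivity)
  | succ m ih =>
    intro F hF x hx
    have h := ih _ (hF.diff hδ) x hx
    rw [pow_succ', sub_mul, one_mul, map_sub, momFun_X_mul, ← momFun_sub]
    have h2 : (fun n : ℕ => F 0 (x + n * δ) - F 0 (x + ((n + 1 : ℕ) : ℝ) * δ)) =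
        (fun n : ℕ => F 0 (x + n * δ) - F 0 (x + n * δ + δ)) := by
      funext n
      congr 2
      push_cast
      ring
    rw [h2]
    exact h

lemma momFun_bernstein_nonneg {F : ℕ → ℝ → ℝ} (hF : IsCM F) {δ : ℝ} (hδ : 0 ≤ δ) (N k : ℕ) :
    0 ≤ momFun (fun n => F 0 (n * δ)) (bernsteinPolynomial ℝ N k) := by
  have h1 : bernsteinPolynomial ℝ N k = (N.choose k : ℝ) • (X ^ k * (1 - X) ^ (N - k)) := by
    rw [bernsteinPolynomial, mul_assoc, Polynomial.smul_eq_C_mul]
    simp
  rw [h1, map_smul, momFun_X_pow_mul, smul_eq_mul]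
  apply mul_nonneg (by positivity)
  have := momFun_one_sub_pow_nonneg (N - k) hδ F hF (k * δ) (by positivity)
  have h2 : (fun n : ℕ => F 0 (((n + k : ℕ) : ℝ) * δ)) = (fun n : ℕ => F 0 (k * δ + n * δ)) := by
    funext n
    congr 1
    push_cast
    ring
  rw [h2]
  exact this

/-- Expansion of monomials in the Bernstein basis. -/
lemma sum_choose_bernstein (N m : ℕ) (hm : m ≤ N) :
    ∑ k ∈ Finset.range (N + 1), (k.choose m : ℝ) • bernsteinPolynomial ℝ N k
      = (N.choose m : ℝ) • X ^ m := by
  have h1 : ∀ k ∈ Finset.range (N + 1), (k.choose m : ℝ) • bernsteinPolynomial ℝ N k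
      = if m ≤ k then (N.choose m : ℝ) • (((N - m).choose (k - m) : ℝ) •
        (X ^ k * (1 - X) ^ (N - k) : ℝ[X])) else 0 := by
    intro k hk
    have hkN : k ≤ N := by
      have := Finset.mem_range.1 hk
      omega
    split_ifs with hmk
    · have h2 := Nat.choose_mul (n := N) (k := k) (s := m) hmk
      have h3 : (N.choose k : ℝ) * (k.choose m : ℝ) = (N.choose m : ℝ) * ((N - m).choose (k - m) : ℝ) := by
        exact_mod_cast h2
      rw [smul_smul, ← h3, bernsteinPolynomial, mul_assoc, Polynomial.smul_eq_C_mul,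
        Polynomial.smul_eq_C_mul, map_mul]
      simp only [map_natCast]
      ring
    · have : k.choose m = 0 := Nat.choose_eq_zero_of_lt (not_le.1 hmk)
      simp [this]
  rw [Finset.sum_congr rfl h1, ← Finset.sum_filter]
  rw [← Finset.smul_sum]
  congr 1
  have h4 : (Finset.range (N + 1)).filter (fun k => m ≤ k) =
      (Finset.range (N - m + 1)).image (fun j => j + m) := by
    ext k
    simp only [Finset.mem_filter, Finset.mem_range, Finset.mem_image]
    constructor
    · rintro ⟨h1, h2⟩
      exact ⟨k - m, by omega, by omega⟩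
    · rintro ⟨j, h1, rfl⟩
      omega
  rw [h4, Finset.sum_image (by intro a _ b _ h; simpa using h)]
  have h5 : ∀ j ∈ Finset.range (N - m + 1),
      (((N - m).choose (j + m - m) : ℝ) • (X ^ (j + m) * (1 - X) ^ (N - (j + m)) : ℝ[X]))
      = X ^ m * (X ^ j * (1 - X) ^ (N - m - j) * ((N - m).choose j : ℝ[X])) := by
    intro j hj
    have : N - (j + m) = N - m - j := by omega
    rw [this, Nat.add_sub_cancel, pow_add, Polynomial.smul_eq_C_mul]
    simp only [map_natCast]
    ring
  rw [Finset.sum_congr rfl h5, ← Finset.mul_sum, ← add_pow]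
  simp

lemma ratio_tendsto (m : ℕ) : ∀ ε : ℝ, 0 < ε → ∀ᶠ N : ℕ in atTop, ∀ k, k ≤ N →
    |(k.choose m : ℝ) / (N.choose m : ℝ) - ((k : ℝ) / N) ^ m| ≤ ε := by
  induction m with
  | zero =>
    intro ε hε
    filter_upwards with N k hk
    simp [hε.le]
  | succ m ih =>
    intro ε hε
    have h1 := ih (ε / 2) (by positivity)
    have h2 : ∀ᶠ N : ℕ in atTop, (m : ℝ) / ((N : ℝ) - m) ≤ ε / 2 := by
      have : Tendsto (fun N : ℕ => (m : ℝ) / ((N : ℝ) - m)) atTop (𝓝 0) := by
        apply Tendsto.div_atTop tendsto_const_nhds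
        exact tendsto_atTop_add_const_right _ _ tendsto_natCast_atTop_atTop
      exact (this.eventually (gt_mem_nhds (by positivity : (0:ℝ) < ε / 2))).mono
        (fun _ h => le_of_lt h)
    filter_upwards [h1, h2, eventually_gt_atTop (m + 1)] with N hN1 hN2 hN3 k hk
    have hNm : (0 : ℝ) < (N : ℝ) - m := by
      have : ((m + 1 : ℕ) : ℝ) < N := by exact_mod_cast hN3
      push_cast at this
      linarith
    have hN0 : (0 : ℝ) < N := by
      have : (0 : ℝ) ≤ m := by positivity
      linarith
    have hkN : (k : ℝ) / N ≤ 1 := by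
      rw [div_le_one hN0]
      exact_mod_cast hk
    have hk0 : 0 ≤ (k : ℝ) / N := by positivity
    have hcN : (0 : ℝ) < N.choose m := by
      exact_mod_cast Nat.choose_pos (by omega)
    have hcN1 : (0 : ℝ) < N.choose (m + 1) := by
      exact_mod_cast Nat.choose_pos (by omega)
    -- recurrences
    have r1 : ∀ n : ℕ, (n.choose (m + 1) : ℝ) * (m + 1) = (n.choose m : ℝ) * ((n : ℝ) - m) := by
      intro n
      have h := Nat.choose_succ_right_eq n m
      rcases le_or_gt m n with hmn | hmn
      · have h' : ((n.choose (m + 1) * (m + 1) : ℕ) : ℝ) = ((n.choose m * (n - m) : ℕ) : ℝ) := by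
          exact_mod_cast h
        push_cast [Nat.cast_sub hmn] at h'
        exact h'
      · have e1 : n.choose m = 0 := Nat.choose_eq_zero_of_lt hmn
        have e2 : n.choose (m + 1) = 0 := Nat.choose_eq_zero_of_lt (by omega)
        simp [e1, e2]
    have rr : (k.choose (m + 1) : ℝ) / (N.choose (m + 1) : ℝ)
        = (k.choose m : ℝ) / (N.choose m : ℝ) * (((k : ℝ) - m) / ((N : ℝ) - m)) := by
      have e1 := r1 k
      have e2 := r1 N
      have e3 : (0 : ℝ) < (m : ℝ) + 1 := by positivity
      rw [div_mul_div_comm, ← e1, ← e2]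
      field_simp
    have hR0 : 0 ≤ (k.choose m : ℝ) / (N.choose m : ℝ) := by positivity
    have hR1 : (k.choose m : ℝ) / (N.choose m : ℝ) ≤ 1 := by
      rw [div_le_one hcN]
      exact_mod_cast Nat.choose_le_choose m hk
    have hd : |((k : ℝ) - m) / ((N : ℝ) - m) - (k : ℝ) / N| ≤ ε / 2 := by
      have e : ((k : ℝ) - m) / ((N : ℝ) - m) - (k : ℝ) / N
          = -((m : ℝ) / ((N : ℝ) - m) * (1 - (k : ℝ) / N)) := by
        field_simp
        ring
      rw [e, abs_neg, abs_of_nonneg (by
        apply mul_nonneg (by positivity)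
        linarith)]
      calc (m : ℝ) / ((N : ℝ) - m) * (1 - (k : ℝ) / N) ≤ (m : ℝ) / ((N : ℝ) - m) * 1 := by
            apply mul_le_mul_of_nonneg_left _ (by positivity)
            linarith
        _ ≤ ε / 2 := by rw [mul_one]; exact hN2
    have hI := hN1 k hk
    rw [rr]
    have key : (k.choose m : ℝ) / (N.choose m : ℝ) * (((k : ℝ) - m) / ((N : ℝ) - m))
          - ((k : ℝ) / N) ^ (m + 1)
        = (k.choose m : ℝ) / (N.choose m : ℝ) * (((k : ℝ) - m) / ((N : ℝ) - m) - (k : ℝ) / N)
          + ((k.choose m : ℝ) / (N.choose m : ℝ) - ((k : ℝ) / N) ^ m) * ((k : ℝ) / N) := by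
      ring
    rw [key]
    calc _ ≤ |(k.choose m : ℝ) / (N.choose m : ℝ) * (((k : ℝ) - m) / ((N : ℝ) - m) - (k : ℝ) / N)|
          + |((k.choose m : ℝ) / (N.choose m : ℝ) - ((k : ℝ) / N) ^ m) * ((k : ℝ) / N)| :=
            abs_add_le _ _
      _ ≤ 1 * (ε / 2) + (ε / 2) * 1 := by
          rw [abs_mul, abs_mul, abs_of_nonneg hR0, abs_of_nonneg hk0]
          gcongr
      _ = ε := by ring

lemma exists_cluster (μ : ℕ → ProbabilityMeasure I) :
    ∃ ν : ProbabilityMeasure I, ∀ (f : C(I, ℝ)) (c : ℝ),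
      Tendsto (fun n => ∫ x, f x ∂(μ n : Measure I)) atTop (𝓝 c) →
      ∫ x, f x ∂(ν : Measure I) = c := by
  let U : Ultrafilter (ProbabilityMeasure I) := (hyperfilter ℕ).map μ
  refine ⟨U.lim, ?_⟩
  intro f c hc
  have h1 : Tendsto μ (hyperfilter ℕ : Filter ℕ) (𝓝 U.lim) := U.le_nhds_lim
  rw [ProbabilityMeasure.tendsto_iff_forall_integral_tendsto] at h1
  have h2 := h1 (BoundedContinuousFunction.mkOfCompact f)
  have h3 := hc.mono_left Nat.hyperfilter_le_atTop
  exact tendsto_nhds_unique h2 h3

/-- The point `k / N` of the unit interval. -/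
def pt (N k : ℕ) : I := Set.projIcc 0 1 zero_le_one ((k : ℝ) / N)

lemma pt_val {N k : ℕ} (hk : k ≤ N) : ((pt N k : I) : ℝ) = (k : ℝ) / N := by
  unfold pt
  rw [Set.projIcc_of_mem]
  constructor
  · positivity
  · rcases Nat.eq_zero_or_pos N with h | h
    · subst h
      simp
    · rw [div_le_one (by exact_mod_cast h)]
      exact_mod_cast hk

/-- Existence of solutions to the Hausdorff moment problem. -/
lemma exists_moment {F : ℕ → ℝ → ℝ} (hF : IsCM F) (h0 : F 0 0 = 1) {δ : ℝ} (hδ : 0 ≤ δ) :
    ∃ μ : ProbabilityMeasure I, ∀ m : ℕ, ∫ x : I, (x : ℝ) ^ m ∂(μ : Measure I) = F 0 (m * δ) := by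
  set w : ℕ → ℕ → ℝ := fun N k => momFun (fun n => F 0 (n * δ)) (bernsteinPolynomial ℝ N k)
    with hw
  have hw0 : ∀ N k, 0 ≤ w N k := fun N k => momFun_bernstein_nonneg hF hδ N k
  have hw1 : ∀ N, ∑ k ∈ Finset.range (N + 1), w N k = 1 := by
    intro N
    simp only [hw]
    rw [← map_sum, bernsteinPolynomial.sum, ← pow_zero X, momFun_X_pow]
    simp [h0]
  let μ' : ℕ → Measure I := fun N =>
    ∑ k ∈ Finset.range (N + 1), ENNReal.ofReal (w N k) • Measure.dirac (pt N k)
  have hμp : ∀ N, IsProbabilityMeasure (μ' N) := by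
    intro N
    constructor
    simp only [μ', Measure.coe_finsetSum, Measure.coe_smul, Finset.sum_apply, Pi.smul_apply,
      measure_univ, smul_eq_mul, mul_one]
    rw [← ENNReal.ofReal_sum_of_nonneg (fun k _ => hw0 N k), hw1, ENNReal.ofReal_one]
  have hint : ∀ N (f : I → ℝ), Continuous f → ∫ x, f x ∂(μ' N)
      = ∑ k ∈ Finset.range (N + 1), w N k * f (pt N k) := by
    intro N f hf
    simp only [μ']
    rw [integral_finsetSum_measure]
    · apply Finset.sum_congr rfl
      intro k _
      rw [integral_smul_measure, integral_dirac, ENNReal.toReal_ofReal (hw0 N k), smul_eq_mul]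
    · intro k _
      apply Integrable.smul_measure _ ENNReal.ofReal_ne_top
      exact integrable_dirac (by simp)
  obtain ⟨ν, hν⟩ := exists_cluster (fun N => ⟨μ' N, hμp N⟩)
  refine ⟨ν, ?_⟩
  intro m
  have := hν ⟨fun x : I => (x : ℝ) ^ m, by fun_prop⟩ (F 0 (m * δ))
  simp only [ContinuousMap.coe_mk, ProbabilityMeasure.coe_mk] at this
  apply this
  rw [Metric.tendsto_atTop]
  intro ε hε
  have h1 := ratio_tendsto m (ε / 2) (by positivity)
  obtain ⟨N0, hN0⟩ := (h1.and (eventually_ge_atTop (m + 1))).exists_forall_of_atTop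
  refine ⟨N0, ?_⟩
  intro N hN
  obtain ⟨hr, hNm⟩ := hN0 N hN
  rw [hint N _ (by fun_prop), Real.dist_eq]
  have hcN : (0 : ℝ) < N.choose m := by
    exact_mod_cast Nat.choose_pos (by omega)
  have hmom : F 0 (m * δ) = ∑ k ∈ Finset.range (N + 1), w N k *
      ((k.choose m : ℝ) / (N.choose m : ℝ)) := by
    have e := congrArg (momFun (fun n => F 0 (n * δ))) (sum_choose_bernstein N m (by omega))
    rw [map_smul, momFun_X_pow, map_sum, smul_eq_mul] at e
    rw [eq_comm, ← mul_right_inj' hcN.ne', ← e, Finset.mul_sum]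
    apply Finset.sum_congr rfl
    intro k _
    rw [map_smul, smul_eq_mul]
    change _ = (k.choose m : ℝ) * w N k
    generalize w N k = q
    field_simp
  rw [hmom, ← Finset.sum_sub_distrib]
  calc |∑ k ∈ Finset.range (N + 1), (w N k * ((pt N k : I) : ℝ) ^ m -
        w N k * ((k.choose m : ℝ) / (N.choose m : ℝ)))|
      ≤ ∑ k ∈ Finset.range (N + 1), w N k * (ε / 2) := by
        apply (Finset.abs_sum_le_sum_abs _ _).trans
        apply Finset.sum_le_sum
        intro k hk
        have hkN : k ≤ N := by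
          have := Finset.mem_range.1 hk
          omega
        rw [← mul_sub, abs_mul, abs_of_nonneg (hw0 N k), pt_val hkN]
        apply mul_le_mul_of_nonneg_left _ (hw0 N k)
        rw [abs_sub_comm]
        exact hr k hkN
    _ = ε / 2 := by rw [← Finset.sum_mul, hw1, one_mul]
    _ < ε := by linarith

/-- Laplace transform representation, on the unit interval. -/
lemma exists_rpow {F : ℕ → ℝ → ℝ} (hF : IsCM F) (h0 : F 0 0 = 1) :
    ∃ ν : ProbabilityMeasure I, ∀ Y : ℝ, 0 < Y → ∫ x : I, (x : ℝ) ^ Y ∂(ν : Measure I) = F 0 Y := by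
  have h1 : ∀ k : ℕ, ∃ μ : ProbabilityMeasure I, ∀ m : ℕ,
      ∫ x : I, (x : ℝ) ^ m ∂(μ : Measure I) = F 0 (m * (1 / (k.factorial : ℝ))) :=
    fun k => exists_moment hF h0 (by positivity)
  choose μ hμ using h1
  let T : ℕ → I → I := fun k x => x ^ (k.factorial)
  have hT : ∀ k, Continuous (T k) := fun k => by
    show Continuous (fun x : I => x ^ (k.factorial))
    fun_prop
  obtain ⟨ν, hν⟩ := exists_cluster (fun k => (μ k).map (hT k).measurable.aemeasurable)
  refine ⟨ν, ?_⟩
  -- rational exponents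
  have hrat : ∀ (j i : ℕ), 0 < j → 0 < i →
      ∫ x : I, (x : ℝ) ^ ((j : ℝ) / i) ∂(ν : Measure I) = F 0 ((j : ℝ) / i) := by
    intro j i hj hi
    have hji : (0 : ℝ) < (j : ℝ) / i := by positivity
    have hc : Continuous (fun x : I => (x : ℝ) ^ ((j : ℝ) / i)) := by
      apply Continuous.rpow_const continuous_subtype_val
      intro x
      right
      exact hji.le
    have := hν ⟨fun x : I => (x : ℝ) ^ ((j : ℝ) / i), hc⟩ (F 0 ((j : ℝ) / i))
    apply this
    apply tendsto_const_nhds.congr'
    filter_upwards [eventually_ge_atTop i] with k hk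
    simp only [ContinuousMap.coe_mk, ProbabilityMeasure.toMeasure_map]
    rw [integral_map (hT k).measurable.aemeasurable hc.aestronglyMeasurable]
    obtain ⟨c, hc'⟩ : i ∣ k.factorial := Nat.dvd_factorial hi hk
    have e1 : ∀ x : I, ((T k x : I) : ℝ) ^ ((j : ℝ) / i) = (x : ℝ) ^ (j * c) := by
      intro x
      have hx : (0 : ℝ) ≤ x := x.2.1
      show (((x ^ (k.factorial) : I)) : ℝ) ^ ((j : ℝ) / i) = (x : ℝ) ^ (j * c)
      rw [show (((x ^ (k.factorial) : I)) : ℝ) = (x : ℝ) ^ (k.factorial) from by push_cast; rfl]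
      rw [← Real.rpow_natCast, ← Real.rpow_mul hx, ← Real.rpow_natCast, hc']
      congr 1
      push_cast
      field_simp
    simp_rw [e1]
    rw [hμ k (j * c), hc']
    congr 1
    have hc0 : (c : ℝ) ≠ 0 := by
      intro h
      have h' : c = 0 := by exact_mod_cast h
      rw [h', mul_zero] at hc'
      exact (Nat.factorial_pos k).ne' hc'
    push_cast
    field_simp
  -- continuity in `Y`
  intro Y hY
  have hcF : ContinuousAt (F 0) Y := (hF.hasDeriv 0 Y hY.le).continuousAt
  have hcI : ContinuousAt (fun y : ℝ => ∫ x : I, (x : ℝ) ^ y ∂(ν : Measure I)) Y := by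
    apply continuousAt_of_dominated (bound := fun _ => (1 : ℝ))
    · filter_upwards [lt_mem_nhds hY] with y hy
      have hc : Continuous (fun x : I => (x : ℝ) ^ y) := by
        apply Continuous.rpow_const continuous_subtype_val
        intro x
        right
        exact hy.le
      exact hc.aestronglyMeasurable
    · filter_upwards [lt_mem_nhds hY] with y hy
      apply Filter.Eventually.of_forall
      intro x
      rw [Real.norm_of_nonneg (Real.rpow_nonneg x.2.1 _)]
      exact Real.rpow_le_one x.2.1 x.2.2 hy.le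
    · exact integrable_const _
    · apply Filter.Eventually.of_forall
      intro x
      exact Real.continuousAt_const_rpow' hY.ne'
  -- approximate `Y` by rationals
  let q : ℕ → ℝ := fun n => ((⌊Y * n⌋₊ : ℕ) : ℝ) / n
  have hq : Tendsto q atTop (𝓝 Y) := tendsto_nat_floor_mul_div_atTop hY.le |>.comp
    tendsto_natCast_atTop_atTop
  have e1 : Tendsto (fun n => F 0 (q n)) atTop (𝓝 (F 0 Y)) := hcF.tendsto.comp hq
  have e2 := hcI.tendsto.comp hq
  refine tendsto_nhds_unique e2 (e1.congr' ?_)
  have hpos : ∀ᶠ n in atTop, 0 < q n := hq.eventually (lt_mem_nhds hY)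
  filter_upwards [hpos, eventually_gt_atTop 0] with n hn hn0
  simp only [Function.comp]
  have hj : 0 < ⌊Y * n⌋₊ := by
    by_contra h
    have h' : ⌊Y * n⌋₊ = 0 := by omega
    simp [q, h'] at hn
  exact (hrat _ _ hj hn0).symm

/-- **Bernstein's theorem**: a completely monotone function on `[0, ∞)` with value `1` at `0` is the
Laplace transform of a probability measure on `[0, ∞)`. -/
theorem exists_laplace {F : ℕ → ℝ → ℝ} (hF : IsCM F) (h0 : F 0 0 = 1) :
    ∃ m : Measure ℝ, IsProbabilityMeasure m ∧ (∀ᵐ l ∂m, 0 ≤ l) ∧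
      ∀ Y : ℝ, 0 ≤ Y → ∫ l, Real.exp (-(l * Y)) ∂m = F 0 Y := by
  obtain ⟨ν, hν⟩ := exists_rpow hF h0
  have hg : Measurable (fun x : I => -Real.log (x : ℝ)) :=
    (Real.measurable_log.comp measurable_subtype_coe).neg
  -- no mass at zero
  have hz : (ν : Measure I) {0} = 0 := by
    have hlim : Tendsto (F 0) (𝓝[>] 0) (𝓝 1) := by
      have := (hF.hasDeriv 0 0 le_rfl).continuousAt.tendsto
      rw [h0] at this
      exact this.mono_left nhdsWithin_le_nhds
    have hle : ∀ Y : ℝ, 0 < Y → F 0 Y ≤ ((ν : Measure I) {0}ᶜ).toReal := by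
      intro Y hY
      rw [← hν Y hY]
      have : ∀ x : I, (x : ℝ) ^ Y ≤ ({0}ᶜ : Set I).indicator (fun _ => (1 : ℝ)) x := by
        intro x
        by_cases hx : x = 0
        · subst hx
          simp [Real.zero_rpow hY.ne']
        · rw [Set.indicator_of_mem (by simpa using hx)]
          exact Real.rpow_le_one x.2.1 x.2.2 hY.le
      calc ∫ x : I, (x : ℝ) ^ Y ∂(ν : Measure I)
          ≤ ∫ x : I, ({0}ᶜ : Set I).indicator (fun _ => (1 : ℝ)) x ∂(ν : Measure I) := by
            apply integral_mono_of_nonneg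
            · exact Filter.Eventually.of_forall (fun x => Real.rpow_nonneg x.2.1 _)
            · exact (integrable_const _).indicator (measurableSet_singleton _).compl
            · exact Filter.Eventually.of_forall this
        _ = ((ν : Measure I) {0}ᶜ).toReal := by
            rw [integral_indicator (measurableSet_singleton _).compl]
            simp [Measure.real]
    have h1 : (1 : ℝ) ≤ ((ν : Measure I) {0}ᶜ).toReal := by
      apply le_of_tendsto hlim
      filter_upwards [self_mem_nhdsWithin] with Y hY using hle Y hY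
    have h2 : (1 : ENNReal) ≤ (ν : Measure I) {0}ᶜ := by
      rw [← ENNReal.ofReal_one]
      exact ENNReal.ofReal_le_of_le_toReal h1
    have h3 : (ν : Measure I) {0}ᶜ = 1 := le_antisymm prob_le_one h2
    rwa [prob_compl_eq_one_iff (measurableSet_singleton _)] at h3
  have hae : ∀ᵐ x : I ∂(ν : Measure I), 0 < (x : ℝ) := by
    have : ∀ᵐ x : I ∂(ν : Measure I), x ≠ 0 := by
      rw [ae_iff]
      simpa using hz
    filter_upwards [this] with x hx
    exact lt_of_le_of_ne x.2.1 (fun h => hx (Subtype.ext h.symm))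
  refine ⟨(ν : Measure I).map (fun x : I => -Real.log (x : ℝ)), ?_, ?_, ?_⟩
  · exact Measure.isProbabilityMeasure_map hg.aemeasurable
  · rw [ae_map_iff hg.aemeasurable measurableSet_Ici]
    filter_upwards [hae] with x hx
    have := Real.log_nonpos x.2.1 x.2.2
    linarith
  · intro Y hY
    rw [integral_map hg.aemeasurable (by fun_prop)]
    rcases hY.eq_or_lt with h | h
    · subst h
      simp [h0]
    · rw [← hν Y h]
      apply integral_congr_ae
      filter_upwards [hae] with x hx
      rw [Real.rpow_def_of_pos hx]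
      congr 1
      ring

end

end Pool.Agent.Lib.MP_fe925f_an
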