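import Mathlib

/-!
# The absolute moment of a shifted standard Gaussian
-/

set_option autoImplicit false

namespace Pool.Agent.Lib.MP_fe925f_an

open MeasureTheory ProbabilityTheory Filter Topology Set

noncomputable section

/-- The standard Gaussian measure on the real line. -/
abbrev stdG : Measure ℝ := gaussianReal 0 1

/-- `E |G + t|` -/
def phi (t : ℝ) : ℝ := ∫ z, |z + t| ∂stdG

/-- `E sign (G + t)` -/
def sgnG (t : ℝ) : ℝ := ∫ z, ((SignType.sign (z + t) : SignType) : ℝ) ∂stdG

lemma integrable_id_stdG : Integrable (fun z : ℝ => z) stdG := by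
  have := (memLp_id_gaussianReal (μ := 0) (v := 1) 1)
  exact memLp_one_iff_integrable.1 this

lemma integrable_abs_add (t : ℝ) : Integrable (fun z : ℝ => |z + t|) stdG :=
  (integrable_id_stdG.add (integrable_const t)).abs

lemma measurable_signR : Measurable (fun x : ℝ => ((SignType.sign x : SignType) : ℝ)) := by
  have : (fun x : ℝ => ((SignType.sign x : SignType) : ℝ)) =
      fun x => if 0 < x then 1 else if x < 0 then -1 else 0 := by
    funext x
    rw [sign_apply]
    split_ifs <;> simp
  rw [this]
  apply Measurable.ite measurableSet_Ioi measurable_const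
  exact Measurable.ite measurableSet_Iio measurable_const measurable_const

lemma abs_signR_le (x : ℝ) : |((SignType.sign x : SignType) : ℝ)| ≤ 1 := by
  rcases lt_trichotomy x 0 with h | h | h <;> simp [h]

lemma phi_hasDerivAt (t : ℝ) : HasDerivAt phi (sgnG t) t := by
  have h := hasDerivAt_integral_of_dominated_loc_of_lip (μ := stdG) (𝕜 := ℝ)
    (F := fun t z => |z + t|) (F' := fun z => ((SignType.sign (z + t) : SignType) : ℝ))
    (x₀ := t) (s := univ) (bound := fun _ => 1) univ_mem
  refine (h ?_ ?_ ?_ ?_ ?_ ?_).2
  · exact Filter.Eventually.of_forall (fun x => (integrable_abs_add x).aestronglyMeasurable)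
  · exact integrable_abs_add t
  · exact (measurable_signR.comp (measurable_id.add_const t)).aestronglyMeasurable
  · apply Filter.Eventually.of_forall
    intro z
    apply LipschitzWith.lipschitzOnWith
    apply LipschitzWith.of_dist_le_mul
    intro x y
    rw [Real.dist_eq, Real.dist_eq]
    have := abs_abs_sub_abs_le (z + x) (z + y)
    simpa using this
  · exact integrable_const _
  · have : ∀ᵐ z ∂stdG, z ≠ -t := by
      rw [ae_iff]
      simp only [ne_eq, not_not]
      have h1 : NullSingletonClass (gaussianReal 0 1) := nullSingletonClass_gaussianReal (by simp)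
      exact h1.measure_singleton _
    filter_upwards [this] with z hz
    have hz' : z + t ≠ 0 := fun h => hz (by linarith)
    have := (hasDerivAt_abs hz').comp_const_add z t
    simpa using this

lemma abs_sgnG_le (t : ℝ) : |sgnG t| ≤ 1 := by
  unfold sgnG
  calc |∫ z, ((SignType.sign (z + t) : SignType) : ℝ) ∂stdG|
      ≤ ∫ z, |((SignType.sign (z + t) : SignType) : ℝ)| ∂stdG := abs_integral_le_integral_abs
    _ ≤ ∫ z, (1 : ℝ) ∂stdG := by
        apply integral_mono_of_nonneg
        · exact Filter.Eventually.of_forall (fun _ => abs_nonneg _)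
        · exact integrable_const _
        · exact Filter.Eventually.of_forall (fun z => abs_signR_le _)
    _ = 1 := by simp

lemma stdG_map_neg : stdG.map (fun x => -x) = stdG := by
  have := gaussianReal_map_neg (μ := 0) (v := 1)
  simpa using this

lemma phi_neg (t : ℝ) : phi (-t) = phi t := by
  unfold phi
  conv_lhs => rw [← stdG_map_neg]
  rw [integral_map (by fun_prop) (by fun_prop)]
  congr 1
  funext z
  rw [← abs_neg]
  congr 1
  ring

lemma sgnG_zero : sgnG 0 = 0 := by
  have h1 : sgnG 0 = - sgnG 0 := by
    unfold sgnG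
    conv_lhs => rw [← stdG_map_neg]
    have h1 := integral_map (μ := stdG) (φ := fun x : ℝ => -x)
      (f := fun z : ℝ => ((SignType.sign (z + 0) : SignType) : ℝ)) (by fun_prop)
      (measurable_signR.comp (measurable_id.add_const (0:ℝ))).aestronglyMeasurable
    rw [h1, ← integral_neg]
    congr 1
    funext z
    rw [add_zero, add_zero, Left.sign_neg]
    simp
  linarith

lemma hasDerivAt_pdf (x : ℝ) : HasDerivAt (gaussianPDFReal 0 1) (-(x * gaussianPDFReal 0 1 x)) x := by
  have h : HasDerivAt (fun x : ℝ => -x ^ 2 / 2) (-x) x := by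
    have := ((hasDerivAt_pow 2 x).neg.div_const 2)
    exact this.congr_deriv (by push_cast; ring)
  have := (h.exp).const_mul ((√(2 * Real.pi))⁻¹)
  have e : gaussianPDFReal 0 1 = fun x => (√(2 * Real.pi))⁻¹ * Real.exp (-x ^ 2 / 2) := by
    funext x
    simp [gaussianPDFReal]
  rw [e]
  exact this.congr_deriv (by ring)

lemma pdf_apply (x : ℝ) : gaussianPDFReal 0 1 x = (√(2 * Real.pi))⁻¹ * Real.exp (-x ^ 2 / 2) := by
  simp [gaussianPDFReal]

lemma integrable_id_mul_pdf : Integrable (fun x : ℝ => x * gaussianPDFReal 0 1 x) := by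
  have h := integrable_id_stdG
  rw [stdG, gaussianReal_of_var_ne_zero _ (by simp)] at h
  rw [integrable_withDensity_iff (measurable_gaussianPDF 0 1)
    (Filter.Eventually.of_forall fun x => gaussianPDF_lt_top)] at h
  simpa [toReal_gaussianPDF] using h

lemma tendsto_pdf_atTop : Tendsto (gaussianPDFReal 0 1) atTop (𝓝 0) := by
  have e : gaussianPDFReal 0 1 = fun x => (√(2 * Real.pi))⁻¹ * Real.exp (-x ^ 2 / 2) := by
    funext x
    simp [gaussianPDFReal]
  rw [e, ← mul_zero ((√(2 * Real.pi))⁻¹)]
  apply Tendsto.const_mul
  apply Real.tendsto_exp_atBot.comp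
  have : Tendsto (fun x : ℝ => x ^ 2 / 2) atTop atTop := by
    apply Tendsto.atTop_div_const (by norm_num)
    exact tendsto_pow_atTop (by norm_num)
  have h2 := tendsto_neg_atTop_atBot.comp this
  refine h2.congr (fun x => ?_)
  simp only [Function.comp]
  ring

lemma integral_Ioi_id_mul_pdf (a : ℝ) :
    ∫ x in Ioi a, x * gaussianPDFReal 0 1 x = gaussianPDFReal 0 1 a := by
  have := integral_Ioi_of_hasDerivAt_of_tendsto' (a := a) (f := fun x => -gaussianPDFReal 0 1 x)
    (f' := fun x => x * gaussianPDFReal 0 1 x) (m := 0) ?_ ?_ ?_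
  · rw [this]; ring
  · intro x _
    exact (hasDerivAt_pdf x).neg.congr_deriv (by ring)
  · exact integrable_id_mul_pdf.integrableOn
  · simpa using tendsto_pdf_atTop.neg

lemma integral_id_mul_pdf : ∫ x, x * gaussianPDFReal 0 1 x = 0 := by
  have h := integral_id_gaussianReal (μ := 0) (v := 1)
  rw [integral_gaussianReal_eq_integral_smul (by simp)] at h
  simpa [mul_comm] using h

lemma integral_Iic_id_mul_pdf (a : ℝ) :
    ∫ x in Iic a, x * gaussianPDFReal 0 1 x = -gaussianPDFReal 0 1 a := by
  have h := integral_id_mul_pdf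
  have h2 := setIntegral_compl (measurableSet_Ioi (a := a)) integrable_id_mul_pdf
  rw [compl_Ioi, h, integral_Ioi_id_mul_pdf] at h2
  rw [h2]; ring

lemma phi_sub_mul_sgnG (t : ℝ) :
    phi t - t * sgnG t = 2 * gaussianPDFReal 0 1 t := by
  have hs : Integrable (fun z : ℝ => ((SignType.sign (z + t) : SignType) : ℝ)) stdG := by
    apply Integrable.of_bound
      (measurable_signR.comp (measurable_id.add_const t)).aestronglyMeasurable 1
    exact Filter.Eventually.of_forall (fun z => by
      rw [Real.norm_eq_abs]
      exact abs_signR_le _)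
  unfold phi sgnG
  rw [← integral_const_mul, ← integral_sub (integrable_abs_add t) (hs.const_mul t)]
  have e1 : ∀ z : ℝ, |z + t| - t * ((SignType.sign (z + t) : SignType) : ℝ)
      = z * ((SignType.sign (z + t) : SignType) : ℝ) := by
    intro z
    have := sign_mul_self (z + t)
    rw [← this]
    ring
  simp_rw [e1]
  rw [integral_gaussianReal_eq_integral_smul (by simp)]
  have hI : Integrable (fun x : ℝ => gaussianPDFReal 0 1 x • (x * ((SignType.sign (x + t) : SignType) : ℝ))) := by
    have h := integrable_id_mul_pdf.abs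
    refine (integrable_id_mul_pdf).mono ?_ ?_
    · exact ((measurable_gaussianPDFReal 0 1).mul (measurable_id.mul
        (measurable_signR.comp (measurable_id.add_const t)))).aestronglyMeasurable
    · apply Filter.Eventually.of_forall
      intro x
      rw [Real.norm_eq_abs, Real.norm_eq_abs, smul_eq_mul, abs_mul, abs_mul, abs_mul]
      have h1 := abs_signR_le (x + t)
      have h2 := abs_nonneg (gaussianPDFReal 0 1 x)
      have h3 := abs_nonneg x
      calc |gaussianPDFReal 0 1 x| * (|x| * |((SignType.sign (x + t) : SignType) : ℝ)|)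
          ≤ |gaussianPDFReal 0 1 x| * (|x| * 1) := by gcongr
        _ = |x| * |gaussianPDFReal 0 1 x| := by ring
  rw [← integral_add_compl (measurableSet_Ioi (a := -t)) hI, compl_Ioi]
  have h1 : ∫ x in Ioi (-t), gaussianPDFReal 0 1 x • (x * ((SignType.sign (x + t) : SignType) : ℝ))
      = gaussianPDFReal 0 1 t := by
    rw [setIntegral_congr_fun (g := fun x => x * gaussianPDFReal 0 1 x) measurableSet_Ioi]
    · rw [integral_Ioi_id_mul_pdf]
      rw [pdf_apply, pdf_apply]
      simp
    · intro x hx
      have : 0 < x + t := by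
        have := mem_Ioi.1 hx
        linarith
      simp only [sign_pos this, SignType.coe_one, smul_eq_mul]
      ring
  have h2 : ∫ x in Iic (-t), gaussianPDFReal 0 1 x • (x * ((SignType.sign (x + t) : SignType) : ℝ))
      = gaussianPDFReal 0 1 t := by
    rw [integral_Iic_eq_integral_Iio]
    rw [setIntegral_congr_fun (g := fun x => -(x * gaussianPDFReal 0 1 x)) measurableSet_Iio]
    · rw [integral_neg, ← integral_Iic_eq_integral_Iio, integral_Iic_id_mul_pdf]
      rw [pdf_apply, pdf_apply]
      simp
    · intro x hx
      have : x + t < 0 := by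
        have := mem_Iio.1 hx
        linarith
      simp only [sign_neg this, SignType.coe_neg_one, smul_eq_mul]
      ring
  rw [h1, h2]
  ring

end

end Pool.Agent.Lib.MP_fe925f_an
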