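import Mathlib
import Pool.Agent.Lib.MP_fe925f_an.GaussAbs

/-!
# An infinite-dimensional Hilbert space of Gaussian random variables
-/

set_option autoImplicit false

namespace Pool.Agent.Lib.MP_fe925f_an

open MeasureTheory ProbabilityTheory Filter Topology Set
open scoped ENNReal NNReal

noncomputable section

/-- `E |r G + x|` -/
def gaussAbs (r x : ℝ) : ℝ := ∫ z, |r * z + x| ∂stdG

/-- The law of a sequence of independent standard Gaussians. -/
def PG : Measure (ℕ → ℝ) := Measure.infinitePi (fun _ : ℕ => gaussianReal 0 1)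

instance : IsProbabilityMeasure PG := by unfold PG; infer_instance

lemma map_eval_PG (i : ℕ) : PG.map (fun ω => ω i) = gaussianReal 0 1 :=
  (measurePreserving_eval_infinitePi (fun _ : ℕ => gaussianReal 0 1) i).map_eq

lemma iIndepFun_PG : iIndepFun (fun (i : ℕ) (ω : ℕ → ℝ) => ω i) PG := by
  rw [iIndepFun_iff_map_fun_eq_infinitePi_map (by fun_prop)]
  simp only [map_eval_PG]
  exact Measure.map_id'

lemma map_sum_PG (a : ℕ → ℝ) (s : Finset ℕ) :
    PG.map (fun ω => ∑ i ∈ s, a i * ω i) =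
      gaussianReal 0 (∑ i ∈ s, (a i) ^ 2).toNNReal := by
  classical
  have hind : iIndepFun (fun (i : ℕ) (ω : ℕ → ℝ) => a i * ω i) PG :=
    iIndepFun_PG.comp (fun i x => a i * x) (fun i => by fun_prop)
  induction s using Finset.induction_on with
  | empty =>
    simp only [Finset.sum_empty]
    rw [Measure.map_const]
    simp
  | insert i s hi ih =>
    have h1 := hind.indepFun_finsetSum_of_notMem (fun i => by fun_prop) hi
    have h2 : PG.map (fun ω : ℕ → ℝ => a i * ω i) = gaussianReal 0 ((a i) ^ 2).toNNReal := by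
      have h3 := gaussianReal_map_const_mul (μ := 0) (v := 1) (a i)
      rw [← map_eval_PG i, Measure.map_map (by fun_prop) (by fun_prop)] at h3
      rw [Real.toNNReal_of_nonneg (sq_nonneg _)]
      simp only [mul_zero, mul_one] at h3
      exact h3
    have h4 : PG.map (∑ j ∈ s, fun ω : ℕ → ℝ => a j * ω j) =
      gaussianReal 0 (∑ i ∈ s, (a i) ^ 2).toNNReal := by
      rw [← ih]
      congr 1
      ext ω
      simp
    have h5 := gaussianReal_add_gaussianReal_of_indepFun h1.symm h2 h4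
    have h6 : (fun ω : ℕ → ℝ => ∑ j ∈ insert i s, a j * ω j) =
      ((fun ω : ℕ → ℝ => a i * ω i) + (∑ j ∈ s, fun ω : ℕ → ℝ => a j * ω j)) := by
      ext ω
      simp [Finset.sum_insert hi]
    rw [h6, h5, add_zero, Finset.sum_insert hi, Real.toNNReal_add (sq_nonneg _)
      (Finset.sum_nonneg (fun i _ => sq_nonneg _))]

lemma memLp_eval_PG (i : ℕ) : MemLp (fun ω : ℕ → ℝ => ω i) 2 PG := by
  have h := memLp_id_gaussianReal (μ := 0) (v := 1) 2
  rw [← map_eval_PG i] at h
  have := (memLp_map_measure_iff (f := fun ω : ℕ → ℝ => ω i) (g := (id : ℝ → ℝ))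
    (by fun_prop) (measurable_pi_apply i).aemeasurable).1 h
  exact this

/-- The coordinates, as elements of `L²`. -/
def coordL (i : ℕ) : Lp ℝ 2 PG := (memLp_eval_PG i).toLp

lemma inner_coordL (i j : ℕ) : inner ℝ (coordL i) (coordL j) = if i = j then (1:ℝ) else 0 := by
  rw [MeasureTheory.L2.inner_def]
  have h1 : ∫ ω, inner ℝ ((coordL i : (ℕ → ℝ) → ℝ) ω) ((coordL j : (ℕ → ℝ) → ℝ) ω) ∂PG
      = ∫ ω : ℕ → ℝ, ω i * ω j ∂PG := by
    apply integral_congr_ae
    filter_upwards [(memLp_eval_PG i).coeFn_toLp, (memLp_eval_PG j).coeFn_toLp] with ω h1 h2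
    rw [coordL, coordL, h1, h2]
    simp [mul_comm]
  rw [h1]
  have hm : ∀ i, ∫ ω : ℕ → ℝ, ω i ∂PG = 0 := by
    intro i
    have h := integral_id_gaussianReal (μ := 0) (v := 1)
    rw [← map_eval_PG i, integral_map (measurable_pi_apply i).aemeasurable (by fun_prop)] at h
    exact h
  split_ifs with hij
  · subst hij
    have h := variance_fun_id_gaussianReal (μ := 0) (v := 1)
    rw [← map_eval_PG i, variance_map (X := fun x : ℝ => x) (Y := fun ω : ℕ → ℝ => ω i)
      (by fun_prop) (measurable_pi_apply i).aemeasurable] at h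
    change variance (fun ω : ℕ → ℝ => ω i) PG = _ at h
    rw [variance_eq_sub (memLp_eval_PG i)] at h
    simp only [Pi.pow_apply, hm i] at h
    have h2 : ∫ ω : ℕ → ℝ, ω i * ω i ∂PG = ∫ ω : ℕ → ℝ, ω i ^ 2 ∂PG := by
      congr 1
      ext ω
      ring
    rw [h2]
    simpa using h
  · have h2 := (iIndepFun_PG.indepFun hij).integral_fun_mul_eq_mul_integral
      (measurable_pi_apply i).aestronglyMeasurable (measurable_pi_apply j).aestronglyMeasurable
    rw [h2, hm i, zero_mul]

lemma orthonormal_coordL : Orthonormal ℝ coordL := by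
  rw [orthonormal_iff_ite]
  intro i j
  exact inner_coordL i j

/-- A random variable with law `N(0, v)` -/
lemma integral_abs_add_of_law {f : (ℕ → ℝ) → ℝ} (hf : AEMeasurable f PG) {v : ℝ} (hv : 0 ≤ v)
    (h : PG.map f = gaussianReal 0 v.toNNReal) (x : ℝ) :
    ∫ ω, |f ω + x| ∂PG = gaussAbs (√v) x := by
  have h1 : stdG.map (fun z => √v * z) = gaussianReal 0 v.toNNReal := by
    have h3 := gaussianReal_map_const_mul (μ := 0) (v := 1) (√v)
    rw [h3, mul_zero, mul_one]
    congr 1
    ext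
    rw [Real.coe_toNNReal _ hv]
    exact Real.sq_sqrt hv
  have h2 : ∫ ω, |f ω + x| ∂PG = ∫ z, |z + x| ∂(PG.map f) := by
    rw [integral_map hf (by fun_prop)]
  have h3 : ∫ z, |√v * z + x| ∂stdG = ∫ z, |z + x| ∂(stdG.map (fun z => √v * z)) := by
    rw [integral_map (by fun_prop) (by fun_prop)]
  rw [h2, gaussAbs, h3, h, h1]

lemma span_prop (h : Lp ℝ 2 PG) (hh : h ∈ Submodule.span ℝ (range coordL)) (x : ℝ) :
    ∫ ω, |h ω + x| ∂PG = gaussAbs ‖h‖ x := by
  rw [Finsupp.mem_span_range_iff_exists_finsupp] at hh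
  obtain ⟨c, rfl⟩ := hh
  rw [Finsupp.sum]
  set a : ℕ → ℝ := fun i => c i with ha
  set s := c.support with hs
  have hn : ‖∑ i ∈ s, a i • coordL i‖ = √(∑ i ∈ s, (a i) ^ 2) := by
    have := orthonormal_coordL.inner_sum a a s
    rw [real_inner_self_eq_norm_sq] at this
    rw [eq_comm, Real.sqrt_eq_iff_mul_self_eq (Finset.sum_nonneg (fun i _ => sq_nonneg _))
      (norm_nonneg _), ← sq, this]
    apply Finset.sum_congr rfl
    intro i _
    simp [sq]
  have hc : ((∑ i ∈ s, a i • coordL i : Lp ℝ 2 PG) : (ℕ → ℝ) → ℝ) =ᵐ[PG]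
      fun ω => ∑ i ∈ s, a i * ω i := by
    have h1 := Lp.coeFn_finsetSum s (fun i => a i • coordL i)
    have h2 : ∀ᵐ ω ∂PG, ∀ i : ℕ, ((a i • coordL i : Lp ℝ 2 PG) : (ℕ → ℝ) → ℝ) ω = a i * ω i := by
      rw [ae_all_iff]
      intro i
      filter_upwards [Lp.coeFn_smul (a i) (coordL i), (memLp_eval_PG i).coeFn_toLp] with ω e1 e2
      rw [e1, Pi.smul_apply, coordL, e2, smul_eq_mul]
    filter_upwards [h1, h2] with ω e1 e2
    rw [e1, Finset.sum_apply]
    apply Finset.sum_congr rfl
    intro i _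
    exact e2 i
  have hm : AEMeasurable ((∑ i ∈ s, a i • coordL i : Lp ℝ 2 PG) : (ℕ → ℝ) → ℝ) PG :=
    (Lp.aestronglyMeasurable _).aemeasurable
  have hlaw : PG.map ((∑ i ∈ s, a i • coordL i : Lp ℝ 2 PG) : (ℕ → ℝ) → ℝ)
      = gaussianReal 0 (∑ i ∈ s, (a i) ^ 2).toNNReal := by
    rw [Measure.map_congr hc, map_sum_PG]
  have := integral_abs_add_of_law hm (Finset.sum_nonneg (fun i _ => sq_nonneg _)) hlaw x
  rw [hn]
  exact this

/-- The Gaussian Hilbert space. -/
def HG : Submodule ℝ (Lp ℝ 2 PG) := (Submodule.span ℝ (range coordL)).topologicalClosure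

lemma integrable_coe (h : Lp ℝ 2 PG) : Integrable (h : (ℕ → ℝ) → ℝ) PG :=
  (Lp.memLp h).integrable (by norm_num)

lemma integral_abs_sub_le (h k : Lp ℝ 2 PG) : ∫ ω, |h ω - k ω| ∂PG ≤ ‖h - k‖ := by
  have h1 : ∫ ω, |h ω - k ω| ∂PG = ∫ ω, ‖(h - k : Lp ℝ 2 PG) ω‖ ∂PG := by
    apply integral_congr_ae
    filter_upwards [Lp.coeFn_sub h k] with ω e
    rw [e, Pi.sub_apply, Real.norm_eq_abs]
  rw [h1]
  have h2 := eLpNorm_le_eLpNorm_of_exponent_le (p := 1) (q := 2) (μ := PG) (by norm_num)
    (Lp.aestronglyMeasurable (h - k))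
  rw [eLpNorm_one_eq_lintegral_enorm] at h2
  rw [integral_norm_eq_lintegral_enorm (Lp.aestronglyMeasurable (h - k)), Lp.norm_def]
  exact ENNReal.toReal_mono (Lp.eLpNorm_ne_top _) h2

lemma continuous_integral_abs (x : ℝ) : Continuous (fun h : Lp ℝ 2 PG => ∫ ω, |h ω + x| ∂PG) := by
  apply LipschitzWith.continuous (K := 1)
  apply LipschitzWith.of_dist_le_mul
  intro h k
  rw [NNReal.coe_one, one_mul, Real.dist_eq, dist_eq_norm]
  have ih : Integrable (fun ω => |h ω + x|) PG := ((integrable_coe h).add (integrable_const x)).abs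
  have ik : Integrable (fun ω => |k ω + x|) PG := ((integrable_coe k).add (integrable_const x)).abs
  have e : (∫ ω, |h ω + x| ∂PG) - ∫ ω, |k ω + x| ∂PG = ∫ ω, (|h ω + x| - |k ω + x|) ∂PG := by
    rw [integral_sub ih ik]
  rw [e]
  calc |∫ ω, (|h ω + x| - |k ω + x|) ∂PG| ≤ ∫ ω, |(|h ω + x| - |k ω + x|)| ∂PG :=
        abs_integral_le_integral_abs
    _ ≤ ∫ ω, |h ω - k ω| ∂PG := by
        apply integral_mono (ih.sub ik).abs ((integrable_coe h).sub (integrable_coe k)).abs
        intro ω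
        have := abs_abs_sub_abs_le (h ω + x) (k ω + x)
        have e2 : h ω + x - (k ω + x) = h ω - k ω := by ring
        rw [e2] at this
        exact this
    _ ≤ ‖h - k‖ := integral_abs_sub_le h k

lemma continuous_gaussAbs (x : ℝ) : Continuous (fun r : ℝ => gaussAbs r x) := by
  have hi : Integrable (fun z : ℝ => |z|) stdG := by
    have := integrable_abs_add 0
    simpa using this
  apply LipschitzWith.continuous (K := (∫ z, |z| ∂stdG).toNNReal)
  apply LipschitzWith.of_dist_le_mul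
  intro r s
  have i1 : ∀ r : ℝ, Integrable (fun z => |r * z + x|) stdG := fun r =>
    ((integrable_id_stdG.const_mul r).add (integrable_const x)).abs
  rw [Real.coe_toNNReal _ (integral_nonneg (fun z => abs_nonneg z)), Real.dist_eq, Real.dist_eq]
  unfold gaussAbs
  rw [← integral_sub (i1 r) (i1 s)]
  calc |∫ z, (|r * z + x| - |s * z + x|) ∂stdG| ≤ ∫ z, |(|r * z + x| - |s * z + x|)| ∂stdG :=
        abs_integral_le_integral_abs
    _ ≤ ∫ z, |z| * |r - s| ∂stdG := by
        apply integral_mono ((i1 r).sub (i1 s)).abs (hi.mul_const _)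
        intro z
        have := abs_abs_sub_abs_le (r * z + x) (s * z + x)
        have e2 : r * z + x - (s * z + x) = z * (r - s) := by ring
        rw [e2, abs_mul] at this
        exact this
    _ = (∫ z, |z| ∂stdG) * |r - s| := by rw [integral_mul_const]

/-- Every element of `HG` is a centered Gaussian variable (in the weak sense that we need). -/
theorem HG_prop (h : HG) (x : ℝ) :
    ∫ ω, |(h : Lp ℝ 2 PG) ω + x| ∂PG = gaussAbs ‖h‖ x := by
  have hcl : IsClosed {h : Lp ℝ 2 PG | ∫ ω, |h ω + x| ∂PG = gaussAbs ‖h‖ x} :=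
    isClosed_eq (continuous_integral_abs x) ((continuous_gaussAbs x).comp continuous_norm)
  have hsub : closure ((Submodule.span ℝ (range coordL) : Set (Lp ℝ 2 PG))) ⊆
      {h : Lp ℝ 2 PG | ∫ ω, |h ω + x| ∂PG = gaussAbs ‖h‖ x} :=
    hcl.closure_subset_iff.2 (fun h hh => span_prop h hh x)
  exact hsub h.2

instance : CompleteSpace HG := by
  unfold HG
  exact (Submodule.isClosed_topologicalClosure _).completeSpace_coe

lemma HG_infinite : ¬ FiniteDimensional ℝ HG := by
  intro hfd
  have hmem : ∀ i, coordL i ∈ HG := fun i =>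
    Submodule.le_topologicalClosure _ (Submodule.subset_span ⟨i, rfl⟩)
  let v : ℕ → HG := fun i => ⟨coordL i, hmem i⟩
  have hv : LinearIndependent ℝ v := by
    have h1 : LinearIndependent ℝ coordL := orthonormal_coordL.linearIndependent
    have : coordL = HG.subtype ∘ v := rfl
    rw [this] at h1
    exact LinearIndependent.of_comp _ h1
  have := hv.finite
  exact not_finite ℕ

lemma HG_exists_unit : ∃ h : HG, ‖h‖ = 1 := by
  have hmem : coordL 0 ∈ HG :=
    Submodule.le_topologicalClosure _ (Submodule.subset_span ⟨0, rfl⟩)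
  exact ⟨⟨coordL 0, hmem⟩, orthonormal_coordL.1 0⟩

end

end Pool.Agent.Lib.MP_fe925f_an
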