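import Mathlib
import Pool.Agent.Lib.MP_fe925f_an.GaussSpace

/-!
# Isometric maps from `HG × ℝ` into `L¹[0,1]`
-/

set_option autoImplicit false

namespace Pool.Agent.Lib.MP_fe925f_an

open MeasureTheory ProbabilityTheory Filter Topology Set
open scoped ENNReal NNReal unitInterval

noncomputable section

/-- The Banach space `L¹[0,1]`, with Lebesgue measure. -/
abbrev L1I : Type := Lp ℝ 1 ((volume : Measure ℝ).restrict (Set.Icc (0 : ℝ) 1))

lemma exists_measurePreserving {Y : Type} [MeasurableSpace Y] [StandardBorelSpace Y]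
    (μ : Measure Y) [IsProbabilityMeasure μ] :
    ∃ f : ℝ → Y, MeasurePreserving f ((volume : Measure ℝ).restrict (Set.Icc (0 : ℝ) 1)) μ := by
  have : Nonempty Y := nonempty_of_isProbabilityMeasure μ
  obtain ⟨f, hf, hm⟩ := Measure.exists_measurable_map_eq μ
  refine ⟨fun x => f (Set.projIcc 0 1 zero_le_one x), ?_, ?_⟩
  · exact hf.comp continuous_projIcc.measurable
  · have h1 : ((volume : Measure ℝ).restrict (Set.Icc (0 : ℝ) 1)) =
        (volume : Measure I).map (Subtype.val) := by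
      rw [← map_comap_subtype_coe measurableSet_Icc]
      rfl
    have h2 : Measurable (fun x : ℝ => f (Set.projIcc 0 1 zero_le_one x)) :=
      hf.comp continuous_projIcc.measurable
    rw [h1, Measure.map_map h2 measurable_subtype_coe]
    rw [← hm]
    congr 1
    funext x
    simp only [Function.comp]
    rw [Set.projIcc_val]

/-- The map `(h, t) ↦ h(ω) + b t`, as a function. -/
def preJ (h : Lp ℝ 2 PG) (t : ℝ) : (ℕ → ℝ) × ℝ → ℝ := fun p => h p.1 + p.2 * t

lemma integrable_preJ {m : Measure ℝ} [IsProbabilityMeasure m] (hm : Integrable (fun b => b) m)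
    (h : Lp ℝ 2 PG) (t : ℝ) : Integrable (preJ h t) (PG.prod m) := by
  unfold preJ
  exact ((integrable_coe h).comp_fst m).add ((hm.comp_snd PG).mul_const t)

/-- The linear map `(h, t) ↦ h(ω) + b t` into `L¹(PG × m)`. -/
def J0 {m : Measure ℝ} [IsProbabilityMeasure m] (hm : Integrable (fun b => b) m) :
    (HG × ℝ) →ₗ[ℝ] Lp ℝ 1 (PG.prod m) where
  toFun x := (integrable_preJ hm (x.1 : Lp ℝ 2 PG) x.2).toL1 _
  map_add' x y := by
    rw [← Integrable.toL1_add]
    rw [Integrable.toL1_eq_toL1_iff]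
    have h1 := Lp.coeFn_add (x.1 : Lp ℝ 2 PG) (y.1 : Lp ℝ 2 PG)
    have h2 : ∀ᵐ p : (ℕ → ℝ) × ℝ ∂(PG.prod m),
        ((x.1 : Lp ℝ 2 PG) + (y.1 : Lp ℝ 2 PG) : Lp ℝ 2 PG) p.1 =
        (x.1 : Lp ℝ 2 PG) p.1 + (y.1 : Lp ℝ 2 PG) p.1 :=
      Measure.quasiMeasurePreserving_fst.ae h1
    filter_upwards [h2] with p hp
    simp only [preJ, Pi.add_apply, Prod.fst_add, Prod.snd_add, Submodule.coe_add]
    rw [hp]
    ring
  map_smul' c x := by
    simp only [RingHom.id_apply]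
    rw [← Integrable.toL1_smul]
    rw [Integrable.toL1_eq_toL1_iff]
    have h1 := Lp.coeFn_smul c (x.1 : Lp ℝ 2 PG)
    have h2 : ∀ᵐ p : (ℕ → ℝ) × ℝ ∂(PG.prod m),
        (c • (x.1 : Lp ℝ 2 PG) : Lp ℝ 2 PG) p.1 = c * (x.1 : Lp ℝ 2 PG) p.1 :=
      Measure.quasiMeasurePreserving_fst.ae h1
    filter_upwards [h2] with p hp
    show (c • (x.1 : Lp ℝ 2 PG) : Lp ℝ 2 PG) p.1 + p.2 * (c * x.2) =
      c * ((x.1 : Lp ℝ 2 PG) p.1 + p.2 * x.2)
    rw [hp]
    ring

lemma norm_J0 {m : Measure ℝ} [IsProbabilityMeasure m] (hm : Integrable (fun b => b) m)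
    (x : HG × ℝ) : ‖J0 hm x‖ = ∫ b, gaussAbs ‖x.1‖ (b * x.2) ∂m := by
  show ‖(integrable_preJ hm (x.1 : Lp ℝ 2 PG) x.2).toL1 _‖ = _
  rw [L1.norm_of_fun_eq_integral_norm]
  rw [integral_prod_symm _ (integrable_preJ hm (x.1 : Lp ℝ 2 PG) x.2).norm]
  apply integral_congr_ae
  apply Filter.Eventually.of_forall
  intro b
  exact HG_prop x.1 (b * x.2)

/-- The general embedding lemma. -/
theorem exists_embedding {m : Measure ℝ} [IsProbabilityMeasure m]
    (hm : Integrable (fun b => b) m) (c : ℝ) (hc : 0 ≤ c) :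
    ∃ J : (HG × ℝ) →ₗ[ℝ] L1I, ∀ x, ‖J x‖ = c * ∫ b, gaussAbs ‖x.1‖ (b * x.2) ∂m := by
  obtain ⟨f, hf⟩ := exists_measurePreserving (PG.prod m)
  refine ⟨c • ((Lp.compMeasurePreservingₗ ℝ f hf).comp (J0 hm)), ?_⟩
  intro x
  rw [LinearMap.smul_apply, norm_smul, Real.norm_of_nonneg hc, LinearMap.comp_apply]
  congr 1
  rw [← norm_J0 hm x]
  exact Lp.norm_compMeasurePreserving _ hf

end

end Pool.Agent.Lib.MP_fe925f_an
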