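import Mathlib
import Pool.Agent.Lib.MP_fe925f_an.Bernstein

/-!
# The inverse of the cubic `y (3 + 2 y)²` and two completely monotone functions
-/

set_option autoImplicit false

namespace Pool.Agent.Lib.MP_fe925f_an

open Filter Topology Set

noncomputable section

/-! ### The first function: `(1 + y)^(-3/2)` -/

/-- Pochhammer-type coefficients -/
def coefA : ℕ → ℝ
  | 0 => 1
  | n + 1 => coefA n * (3 / 2 + n)

lemma coefA_nonneg (n : ℕ) : 0 ≤ coefA n := by
  induction n with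
  | zero => simp [coefA]
  | succ n ih =>
    simp only [coefA]
    positivity

/-- derivatives of `(1 + y)^(-3/2)` -/
def famA (n : ℕ) (y : ℝ) : ℝ := coefA n * (1 + y) ^ (-(3 / 2 : ℝ) - n)

lemma isCM_famA : IsCM famA where
  nonneg n x hx := by
    unfold famA
    apply mul_nonneg (coefA_nonneg n)
    apply Real.rpow_nonneg
    linarith
  hasDeriv n x hx := by
    unfold famA
    have h1 : HasDerivAt (fun y : ℝ => 1 + y) 1 x := by
      simpa using (hasDerivAt_id x).const_add 1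
    have h2 := (h1.rpow_const (p := -(3 / 2 : ℝ) - n) (Or.inl (by linarith))).const_mul (coefA n)
    refine h2.congr_deriv ?_
    simp only [coefA]
    push_cast
    rw [show (-(3 / 2 : ℝ) - n - 1) = -(3 / 2 : ℝ) - (n + 1) by ring]
    ring

lemma famA_zero (y : ℝ) (hy : 0 ≤ y) : famA 0 y = 1 / ((1 + y) * √(1 + y)) := by
  unfold famA
  have h : 0 < 1 + y := by linarith
  simp only [coefA, one_mul, Nat.cast_zero, sub_zero]
  rw [Real.rpow_neg h.le, one_div]
  congr 1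
  rw [Real.sqrt_eq_rpow, ← Real.rpow_one_add' h.le (by norm_num)]
  norm_num

/-! ### The inverse function -/

/-- The cubic polynomial. -/
def cub (y : ℝ) : ℝ := y * (3 + 2 * y) ^ 2

lemma cub_hasDerivAt (y : ℝ) : HasDerivAt cub (3 * (1 + 2 * y) * (3 + 2 * y)) y := by
  unfold cub
  have h1 : HasDerivAt (fun y : ℝ => 3 + 2 * y) 2 y := by
    simpa using ((hasDerivAt_id y).const_mul 2).const_add 3
  have h2 := (hasDerivAt_id y).mul (h1.pow 2)
  refine h2.congr_deriv ?_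
  simp only [id, Pi.pow_apply]
  push_cast
  ring

lemma cub_strictMonoOn : StrictMonoOn cub (Ici (-1 / 2)) := by
  apply strictMonoOn_of_deriv_pos (convex_Ici _)
  · intro x _
    exact (cub_hasDerivAt x).continuousAt.continuousWithinAt
  · intro x hx
    rw [interior_Ici] at hx
    rw [(cub_hasDerivAt x).deriv]
    have : -1 / 2 < x := hx
    have h1 : 0 < 1 + 2 * x := by linarith
    have h2 : 0 < 3 + 2 * x := by linarith
    positivity

lemma continuous_cub : Continuous cub :=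
  continuous_iff_continuousAt.2 (fun y => (cub_hasDerivAt y).continuousAt)

lemma cub_surj (Y : ℝ) (hY : -2 < Y) : ∃ y, -1 / 2 < y ∧ cub y = Y := by
  have h1 : cub (-1 / 2) = -2 := by unfold cub; norm_num
  have h2 : Y ≤ cub (|Y| + 1) := by
    unfold cub
    have := abs_nonneg Y
    have h3 := le_abs_self Y
    nlinarith [sq_nonneg (3 + 2 * (|Y| + 1)), mul_nonneg this this, mul_nonneg (mul_nonneg this this) this]
  have h3 : (-1 / 2 : ℝ) ≤ |Y| + 1 := by
    have := abs_nonneg Y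
    linarith
  have := intermediate_value_Icc h3 (continuous_cub.continuousOn)
  have hmem : Y ∈ Icc (cub (-1 / 2)) (cub (|Y| + 1)) := ⟨by rw [h1]; exact hY.le, h2⟩
  obtain ⟨y, hy, hyY⟩ := this hmem
  refine ⟨y, ?_, hyY⟩
  rcases hy.1.eq_or_lt with h | h
  · rw [← h, h1] at hyY
    linarith
  · exact h

/-- The inverse of the cubic. -/
def psi (Y : ℝ) : ℝ := if h : -2 < Y then Classical.choose (cub_surj Y h) else 0

lemma psi_gt {Y : ℝ} (h : -2 < Y) : -1 / 2 < psi Y := by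
  unfold psi
  rw [dif_pos h]
  exact (Classical.choose_spec (cub_surj Y h)).1

lemma cub_psi {Y : ℝ} (h : -2 < Y) : cub (psi Y) = Y := by
  unfold psi
  rw [dif_pos h]
  exact (Classical.choose_spec (cub_surj Y h)).2

lemma cub_gt {y : ℝ} (hy : -1 / 2 < y) : -2 < cub y := by
  have h1 : cub (-1 / 2) = -2 := by unfold cub; norm_num
  rw [← h1]
  exact cub_strictMonoOn (mem_Ici.2 le_rfl) (mem_Ici.2 hy.le) hy

lemma psi_cub {y : ℝ} (hy : -1 / 2 < y) : psi (cub y) = y := by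
  have h1 := cub_psi (cub_gt hy)
  exact cub_strictMonoOn.injOn (mem_Ici.2 (psi_gt (cub_gt hy)).le) (mem_Ici.2 hy.le) h1

lemma psi_strictMonoOn : StrictMonoOn psi (Ioi (-2)) := by
  intro a ha b hb hab
  have ha' : -2 < a := ha
  have hb' : -2 < b := hb
  by_contra h
  push Not at h
  have := cub_strictMonoOn.monotoneOn (mem_Ici.2 (psi_gt hb').le) (mem_Ici.2 (psi_gt ha').le) h
  rw [cub_psi ha', cub_psi hb'] at this
  linarith

lemma psi_continuousAt {Y : ℝ} (h : -2 < Y) : ContinuousAt psi Y := by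
  apply continuousAt_of_monotoneOn_of_image_mem_nhds psi_strictMonoOn.monotoneOn (Ioi_mem_nhds h)
  apply mem_of_superset (Ioi_mem_nhds (psi_gt h))
  intro y hy
  exact ⟨cub y, cub_gt hy, psi_cub hy⟩

lemma psi_hasDerivAt {Y : ℝ} (h : -2 < Y) :
    HasDerivAt psi (3 * (1 + 2 * psi Y) * (3 + 2 * psi Y))⁻¹ Y := by
  apply HasDerivAt.of_local_left_inverse (psi_continuousAt h) (cub_hasDerivAt (psi Y))
  · have := psi_gt h
    have h1 : 0 < 1 + 2 * psi Y := by linarith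
    have h2 : 0 < 3 + 2 * psi Y := by linarith
    positivity
  · filter_upwards [Ioi_mem_nhds h] with Z hZ
    exact cub_psi hZ

lemma psi_nonneg {Y : ℝ} (h : 0 ≤ Y) : 0 ≤ psi Y := by
  have h0 : psi 0 = 0 := by
    have := psi_cub (y := 0) (by norm_num)
    simpa [cub] using this
  rw [← h0]
  exact psi_strictMonoOn.monotoneOn (by norm_num) (mem_Ioi.2 (by linarith)) h

lemma psi_zero : psi 0 = 0 := by
  have := psi_cub (y := 0) (by norm_num)
  simpa [cub] using this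

/-! ### A class of completely monotone functions of `Y` -/

/-- basic functions -/
def mono (α β δ : ℝ) (Y : ℝ) : ℝ :=
  (1 + psi Y) ^ (-α) * (1 + 2 * psi Y) ^ (-β) * (3 + 2 * psi Y) ^ (-δ)

/-- The cone generated by the basic functions. -/
inductive Cls : (ℝ → ℝ) → Prop
  | base (c α β δ : ℝ) (hc : 0 ≤ c) (hα : 0 ≤ α) (hβ : 0 ≤ β) (hδ : 0 ≤ δ) :
      Cls (fun Y => c * mono α β δ Y)
  | add (f g : ℝ → ℝ) (hf : Cls f) (hg : Cls g) : Cls (fun Y => f Y + g Y)

lemma mono_nonneg (α β δ : ℝ) {Y : ℝ} (hY : 0 ≤ Y) : 0 ≤ mono α β δ Y := by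
  have := psi_nonneg hY
  unfold mono
  apply mul_nonneg
  · apply mul_nonneg
    · apply Real.rpow_nonneg; linarith
    · apply Real.rpow_nonneg; linarith
  · apply Real.rpow_nonneg; linarith

lemma mono_hasDerivAt (α β δ : ℝ) {Y : ℝ} (hY : 0 ≤ Y) :
    HasDerivAt (mono α β δ) (-((α / 3) * mono (α + 1) (β + 1) (δ + 1) Y
      + (2 * β / 3) * mono α (β + 2) (δ + 1) Y + (2 * δ / 3) * mono α (β + 1) (δ + 2) Y)) Y := by
  have hy := psi_nonneg hY
  have hp := psi_hasDerivAt (Y := Y) (by linarith)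
  set y := psi Y with hyd
  have a1 : 0 < 1 + y := by linarith
  have a2 : 0 < 1 + 2 * y := by linarith
  have a3 : 0 < 3 + 2 * y := by linarith
  have h1 : HasDerivAt (fun Y => 1 + psi Y) (3 * (1 + 2 * y) * (3 + 2 * y))⁻¹ Y := hp.const_add 1
  have h2 : HasDerivAt (fun Y => 1 + 2 * psi Y) (2 * (3 * (1 + 2 * y) * (3 + 2 * y))⁻¹) Y :=
    (hp.const_mul 2).const_add 1
  have h3 : HasDerivAt (fun Y => 3 + 2 * psi Y) (2 * (3 * (1 + 2 * y) * (3 + 2 * y))⁻¹) Y :=
    (hp.const_mul 2).const_add 3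
  have k1 := h1.rpow_const (p := -α) (Or.inl (by rw [← hyd]; exact a1.ne'))
  have k2 := h2.rpow_const (p := -β) (Or.inl (by rw [← hyd]; exact a2.ne'))
  have k3 := h3.rpow_const (p := -δ) (Or.inl (by rw [← hyd]; exact a3.ne'))
  have k := (k1.mul k2).mul k3
  refine k.congr_deriv ?_
  simp only [mono, ← hyd, Pi.mul_apply]
  have e1 : (1 + y) ^ (-α - 1) = (1 + y) ^ (-α) * (1 + y)⁻¹ := by
    rw [Real.rpow_sub a1, Real.rpow_one]; rfl
  have e1' : (1 + y) ^ (-(α + 1)) = (1 + y) ^ (-α) * (1 + y)⁻¹ := by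
    rw [← e1]; congr 1; ring
  have e2 : (1 + 2 * y) ^ (-β - 1) = (1 + 2 * y) ^ (-β) * (1 + 2 * y)⁻¹ := by
    rw [Real.rpow_sub a2, Real.rpow_one]; rfl
  have e2' : (1 + 2 * y) ^ (-(β + 1)) = (1 + 2 * y) ^ (-β) * (1 + 2 * y)⁻¹ := by
    rw [← e2]; congr 1; ring
  have e2'' : (1 + 2 * y) ^ (-(β + 2)) = (1 + 2 * y) ^ (-β) * ((1 + 2 * y)⁻¹ * (1 + 2 * y)⁻¹) := by
    rw [show -(β + 2) = -β - 2 by ring, Real.rpow_sub a2, Real.rpow_two]
    field_simp
  have e3 : (3 + 2 * y) ^ (-δ - 1) = (3 + 2 * y) ^ (-δ) * (3 + 2 * y)⁻¹ := by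
    rw [Real.rpow_sub a3, Real.rpow_one]; rfl
  have e3' : (3 + 2 * y) ^ (-(δ + 1)) = (3 + 2 * y) ^ (-δ) * (3 + 2 * y)⁻¹ := by
    rw [← e3]; congr 1; ring
  have e3'' : (3 + 2 * y) ^ (-(δ + 2)) = (3 + 2 * y) ^ (-δ) * ((3 + 2 * y)⁻¹ * (3 + 2 * y)⁻¹) := by
    rw [show -(δ + 2) = -δ - 2 by ring, Real.rpow_sub a3, Real.rpow_two]
    field_simp
  rw [e1, e1', e2, e2', e2'', e3, e3', e3'']
  generalize (1 + y) ^ (-α) = A
  generalize (1 + 2 * y) ^ (-β) = B
  generalize (3 + 2 * y) ^ (-δ) = D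
  field_simp
  ring

lemma Cls.nonneg {f : ℝ → ℝ} (hf : Cls f) : ∀ Y, 0 ≤ Y → 0 ≤ f Y := by
  induction hf with
  | base c α β δ hc _ _ _ =>
    intro Y hY
    exact mul_nonneg hc (mono_nonneg α β δ hY)
  | add f g _ _ ihf ihg =>
    intro Y hY
    exact add_nonneg (ihf Y hY) (ihg Y hY)

lemma Cls.deriv {f : ℝ → ℝ} (hf : Cls f) :
    ∃ f', Cls f' ∧ ∀ Y, 0 ≤ Y → HasDerivAt f (-(f' Y)) Y := by
  induction hf with
  | base c α β δ hc hα hβ hδ =>
    refine ⟨fun Y => (fun Y => (c * (α / 3)) * mono (α + 1) (β + 1) (δ + 1) Y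
      + (c * (2 * β / 3)) * mono α (β + 2) (δ + 1) Y) Y
      + (c * (2 * δ / 3)) * mono α (β + 1) (δ + 2) Y, ?_, ?_⟩
    · apply Cls.add
      · apply Cls.add
        · apply Cls.base <;> positivity
        · apply Cls.base <;> positivity
      · apply Cls.base <;> positivity
    · intro Y hY
      refine ((mono_hasDerivAt α β δ hY).const_mul c).congr_deriv ?_
      ring
  | add f g _ _ ihf ihg =>
    obtain ⟨f', hf', hdf⟩ := ihf
    obtain ⟨g', hg', hdg⟩ := ihg
    refine ⟨fun Y => f' Y + g' Y, Cls.add _ _ hf' hg', ?_⟩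
    intro Y hY
    refine ((hdf Y hY).add (hdg Y hY)).congr_deriv ?_
    ring

/-- Every member of the cone is completely monotone. -/
theorem Cls.isCM {f : ℝ → ℝ} (hf : Cls f) : ∃ F : ℕ → ℝ → ℝ, IsCM F ∧ F 0 = f := by
  let G : ℕ → {f : ℝ → ℝ // Cls f} := fun n =>
    Nat.rec ⟨f, hf⟩ (fun _ p => ⟨Classical.choose p.2.deriv, (Classical.choose_spec p.2.deriv).1⟩) n
  refine ⟨fun n => (G n).1, ⟨?_, ?_⟩, rfl⟩
  · intro n x hx
    exact (G n).2.nonneg x hx
  · intro n x hx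
    exact (Classical.choose_spec (G n).2.deriv).2 x hx

/-! ### The second function: `L(Y) = √(1+y) / (1+2y)`, `y = psi Y` -/

/-- The Laplace transform of the dual profile. -/
def funB (Y : ℝ) : ℝ := 1 / 2 * mono (1 / 2) 0 0 Y + 1 / 2 * mono (1 / 2) 1 0 Y

lemma cls_funB : Cls funB := by
  apply Cls.add
  · apply Cls.base <;> norm_num
  · apply Cls.base <;> norm_num

lemma funB_eq {Y : ℝ} (hY : 0 ≤ Y) : funB Y = √(1 + psi Y) / (1 + 2 * psi Y) := by
  have hy := psi_nonneg hY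
  set y := psi Y with hyd
  have a1 : 0 < 1 + y := by linarith
  have a2 : 0 < 1 + 2 * y := by linarith
  have a3 : 0 < 3 + 2 * y := by linarith
  unfold funB mono
  rw [← hyd]
  have e1 : (1 + y) ^ (-(1 / 2 : ℝ)) = (√(1 + y))⁻¹ := by
    rw [Real.rpow_neg a1.le, Real.sqrt_eq_rpow]
  have e2 : (1 + 2 * y) ^ (-(1 : ℝ)) = (1 + 2 * y)⁻¹ := by
    rw [Real.rpow_neg a2.le, Real.rpow_one]
  rw [e1, e2]
  simp only [neg_zero, Real.rpow_zero, mul_one]
  have hs : 0 < √(1 + y) := Real.sqrt_pos.2 a1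
  have hss : √(1 + y) * √(1 + y) = 1 + y := Real.mul_self_sqrt a1.le
  field_simp
  rw [sq, hss]
  ring

lemma funB_zero : funB 0 = 1 := by
  rw [funB_eq le_rfl, psi_zero]
  simp

end

end Pool.Agent.Lib.MP_fe925f_an
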