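import Mathlib
import Pool.Agent.Lib.MP_fe925f_an.Bernstein
import Pool.Agent.Lib.MP_fe925f_an.Embed

/-!
# From completely monotone functions to subspaces of `L¹`
-/

set_option autoImplicit false

namespace Pool.Agent.Lib.MP_fe925f_an

open MeasureTheory ProbabilityTheory Filter Topology Set
open scoped ENNReal NNReal

noncomputable section

/-- The first moment is finite. -/
lemma integrable_of_laplace {F : ℕ → ℝ → ℝ} (hF : IsCM F) {μ : Measure ℝ}
    [IsProbabilityMeasure μ] (hpos : ∀ᵐ l ∂μ, 0 ≤ l)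
    (hL : ∀ Y : ℝ, 0 ≤ Y → ∫ l, Real.exp (-(l * Y)) ∂μ = F 0 Y) :
    Integrable (fun l : ℝ => l) μ := by
  refine ⟨by fun_prop, ?_⟩
  -- approximations
  let f : ℕ → ℝ → ℝ≥0∞ := fun n l => ENNReal.ofReal ((n + 1 : ℝ) * (1 - Real.exp (-(l * (1 / (n + 1 : ℝ))))))
  have hfm : ∀ n, Measurable (f n) := by
    intro n
    apply ENNReal.measurable_ofReal.comp
    fun_prop
  have hexpi : ∀ Y : ℝ, 0 ≤ Y → Integrable (fun l => Real.exp (-(l * Y))) μ := by
    intro Y hY
    apply Integrable.of_bound (by fun_prop) 1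
    filter_upwards [hpos] with l hl
    rw [Real.norm_of_nonneg (Real.exp_pos _).le]
    rw [Real.exp_le_one_iff]
    have := mul_nonneg hl hY
    linarith
  have hbound : ∀ n, ∫⁻ l, f n l ∂μ ≤ ENNReal.ofReal (F 1 0) := by
    intro n
    have hn : (0 : ℝ) < 1 / (n + 1 : ℝ) := by positivity
    have hn' : (0 : ℝ) < (n + 1 : ℝ) := by positivity
    have hi : Integrable (fun l => (n + 1 : ℝ) * (1 - Real.exp (-(l * (1 / (n + 1 : ℝ)))))) μ :=
      ((integrable_const 1).sub (hexpi _ hn.le)).const_mul _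
    have h0 : 0 ≤ᵐ[μ] (fun l => (n + 1 : ℝ) * (1 - Real.exp (-(l * (1 / (n + 1 : ℝ)))))) := by
      filter_upwards [hpos] with l hl
      simp only [Pi.zero_apply]
      apply mul_nonneg hn'.le
      rw [sub_nonneg, Real.exp_le_one_iff]
      have := mul_nonneg hl hn.le
      linarith
    rw [← ofReal_integral_eq_lintegral_ofReal hi h0]
    apply ENNReal.ofReal_le_ofReal
    rw [integral_const_mul, integral_sub (integrable_const _) (hexpi _ hn.le), hL _ hn.le]
    have h00 : F 0 0 = 1 := by
      rw [← hL 0 le_rfl]; simp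
    simp only [integral_const, smul_eq_mul, mul_one, probReal_univ]
    -- mean value inequality
    have hmv : F 0 0 - F 0 (1 / (n + 1 : ℝ)) ≤ F 1 0 * (1 / (n + 1 : ℝ)) := by
      obtain ⟨c, hc, hceq⟩ := exists_hasDerivAt_eq_slope (F 0) (fun x => -(F 1 x)) hn
        (fun x hx => (hF.hasDeriv 0 x hx.1).continuousAt.continuousWithinAt)
        (fun x hx => hF.hasDeriv 0 x hx.1.le)
      have h1 : F 1 c ≤ F 1 0 := hF.anti 1 (mem_Ici.2 le_rfl) (mem_Ici.2 hc.1.le) hc.1.le
      rw [sub_zero, eq_div_iff hn.ne'] at hceq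
      nlinarith
    rw [h00] at hmv
    calc (n + 1 : ℝ) * (1 - F 0 (1 / (n + 1 : ℝ))) ≤ (n + 1 : ℝ) * (F 1 0 * (1 / (n + 1 : ℝ))) := by
          gcongr
      _ = F 1 0 := by field_simp
  have hlim : ∀ᵐ l ∂μ, ENNReal.ofReal l ≤ liminf (fun n => f n l) atTop := by
    filter_upwards [hpos] with l hl
    have ht : Tendsto (fun n : ℕ => (n + 1 : ℝ) * (1 - Real.exp (-(l * (1 / (n + 1 : ℝ)))))) atTop (𝓝 l) := by
      have hd : HasDerivAt (fun x : ℝ => 1 - Real.exp (-(l * x))) l 0 := by
        have h1 : HasDerivAt (fun x : ℝ => -(l * x)) (-l) 0 := by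
          exact (((hasDerivAt_id (0:ℝ)).const_mul l).neg).congr_deriv (by simp)
        have h2 := h1.exp.const_sub 1
        simpa using h2
      have h3 := hd.tendsto_slope_zero_right
      have h4 : Tendsto (fun n : ℕ => (1 / (n + 1 : ℝ))) atTop (𝓝[>] 0) := by
        rw [tendsto_nhdsWithin_iff]
        exact ⟨tendsto_one_div_add_atTop_nhds_zero_nat, Filter.Eventually.of_forall (fun n => by
          rw [mem_Ioi]; positivity)⟩
      have h5 := h3.comp h4
      refine h5.congr (fun n => ?_)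
      simp [Function.comp]
    have ht2 := (ENNReal.continuous_ofReal.tendsto l).comp ht
    exact ht2.liminf_eq.ge
  calc ∫⁻ l, ‖l‖ₑ ∂μ = ∫⁻ l, ENNReal.ofReal l ∂μ := by
        apply lintegral_congr_ae
        filter_upwards [hpos] with l hl
        rw [Real.enorm_eq_ofReal hl]
    _ ≤ ∫⁻ l, liminf (fun n => f n l) atTop ∂μ := lintegral_mono_ae hlim
    _ ≤ liminf (fun n => ∫⁻ l, f n l ∂μ) atTop := lintegral_liminf_le hfm
    _ ≤ ENNReal.ofReal (F 1 0) := by
        apply liminf_le_of_le
        · isBoundedDefault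
        · intro b hb
          obtain ⟨n, hn⟩ := hb.exists
          exact hn.trans (hbound n)
    _ < ∞ := ENNReal.ofReal_lt_top

lemma gaussAbs_eq {r : ℝ} (hr : 0 < r) (x : ℝ) : gaussAbs r x = r * phi (x / r) := by
  unfold gaussAbs phi
  rw [← integral_const_mul]
  congr 1
  funext z
  rw [← abs_of_pos hr, ← abs_mul, abs_of_pos hr]
  congr 1
  field_simp

/-- mixture of `phi` -/
def mix (m : Measure ℝ) (T : ℝ) : ℝ := ∫ b, phi (b * T) ∂m

lemma continuous_phi : Continuous phi :=
  continuous_iff_continuousAt.2 (fun t => (phi_hasDerivAt t).continuousAt)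

lemma measurable_sgnG : Measurable sgnG := by
  have : sgnG = deriv phi := by
    funext t
    exact (phi_hasDerivAt t).deriv.symm
  rw [this]
  exact measurable_deriv phi

lemma abs_phi_le (t : ℝ) : |phi t| ≤ phi 0 + |t| := by
  have h0 : 0 ≤ phi t := integral_nonneg (fun z => abs_nonneg _)
  rw [abs_of_nonneg h0]
  unfold phi
  calc ∫ z, |z + t| ∂stdG ≤ ∫ z, (|z + 0| + |t|) ∂stdG := by
        apply integral_mono (integrable_abs_add t) ((integrable_abs_add 0).add (integrable_const _))
        intro z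
        simpa using abs_add_le z t
    _ = (∫ z, |z + 0| ∂stdG) + |t| := by
        rw [integral_add (integrable_abs_add 0) (integrable_const _)]
        simp

lemma integrable_phi_comp {m : Measure ℝ} [IsProbabilityMeasure m]
    (hm : Integrable (fun b => b) m) (T : ℝ) : Integrable (fun b => phi (b * T)) m := by
  apply Integrable.mono' (g := fun b => phi 0 + |b * T|)
  · exact (integrable_const _).add (hm.mul_const T).abs
  · exact (continuous_phi.comp (by fun_prop)).aestronglyMeasurable
  · exact Filter.Eventually.of_forall (fun b => abs_phi_le _)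

lemma mix_hasDerivAt {m : Measure ℝ} [IsProbabilityMeasure m]
    (hm : Integrable (fun b => b) m) (T : ℝ) :
    Integrable (fun b => b * sgnG (b * T)) m ∧
    HasDerivAt (mix m) (∫ b, b * sgnG (b * T) ∂m) T := by
  apply hasDerivAt_integral_of_dominated_loc_of_deriv_le (μ := m) (𝕜 := ℝ)
    (F := fun T b => phi (b * T)) (F' := fun T b => b * sgnG (b * T))
    (x₀ := T) (s := univ) (bound := fun b => |b|) univ_mem
  · exact Filter.Eventually.of_forall (fun x => (integrable_phi_comp hm x).aestronglyMeasurable)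
  · exact integrable_phi_comp hm T
  · exact (measurable_id.mul (measurable_sgnG.comp (measurable_id.mul_const T))).aestronglyMeasurable
  · apply Filter.Eventually.of_forall
    intro b x _
    rw [Real.norm_eq_abs, abs_mul]
    have := abs_sgnG_le (b * x)
    nlinarith [abs_nonneg b]
  · exact hm.abs
  · apply Filter.Eventually.of_forall
    intro b x _
    have h1 : HasDerivAt (fun x : ℝ => b * x) b x := by
      simpa using (hasDerivAt_id x).const_mul b
    have := (phi_hasDerivAt (b * x)).comp x h1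
    rw [mul_comm] at this
    exact this

lemma mix_sub {m : Measure ℝ} [IsProbabilityMeasure m]
    (hm : Integrable (fun b => b) m) (T : ℝ) :
    mix m T - T * ∫ b, b * sgnG (b * T) ∂m
      = 2 * (√(2 * Real.pi))⁻¹ * ∫ b, Real.exp (-(b ^ 2 / 2 * T ^ 2)) ∂m := by
  unfold mix
  rw [← integral_const_mul, ← integral_sub (integrable_phi_comp hm T)
    ((mix_hasDerivAt hm T).1.const_mul T), ← integral_const_mul]
  congr 1
  funext b
  have h := phi_sub_mul_sgnG (b * T)
  rw [pdf_apply] at h
  have e1 : T * (b * sgnG (b * T)) = b * T * sgnG (b * T) := by ring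
  have e2 : -(b ^ 2 / 2 * T ^ 2) = -(b * T) ^ 2 / 2 := by ring
  rw [e1, h, e2]
  ring

/-- Uniqueness for the ordinary differential equation `g - T g' = rhs`. -/
lemma ode_unique {f g f' g' : ℝ → ℝ} (hf : ∀ T, 0 ≤ T → HasDerivAt f (f' T) T)
    (hg : ∀ T, 0 ≤ T → HasDerivAt g (g' T) T)
    (h : ∀ T, 0 ≤ T → f T - T * f' T = g T - T * g' T) (h0 : f' 0 = g' 0) :
    ∀ T, 0 ≤ T → f T = g T := by
  -- the quotient `(f - g) / T` is constant on `(0, ∞)`
  have hconst : ∀ a ∈ Ioi (0:ℝ), ∀ b ∈ Ioi (0:ℝ), (f a - g a) / a = (f b - g b) / b := by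
    intro a ha b hb
    have hd : ∀ x ∈ Ioi (0:ℝ), HasDerivAt (fun T => (f T - g T) / T) 0 x := by
      intro x hx
      have hx0 : x ≠ 0 := (ne_of_gt hx)
      have := ((hf x (le_of_lt hx)).sub (hg x (le_of_lt hx))).div (hasDerivAt_id x) hx0
      refine this.congr_deriv ?_
      simp only [id, Pi.sub_apply]
      rw [div_eq_zero_iff]
      left
      have := h x (le_of_lt hx)
      linarith
    exact isOpen_Ioi.is_const_of_deriv_eq_zero (isPreconnected_Ioi)
      (fun x hx => (hd x hx).differentiableAt.differentiableWithinAt)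
      (fun x hx => (hd x hx).deriv) ha hb
  have h00 : f 0 = g 0 := by
    have := h 0 le_rfl
    simpa using this
  have hlim : Tendsto (fun T => (f T - g T) / T) (𝓝[>] 0) (𝓝 0) := by
    have hd := ((hf 0 le_rfl).sub (hg 0 le_rfl)).tendsto_slope_zero_right
    rw [h0, sub_self] at hd
    refine hd.congr (fun T => ?_)
    simp [h00]
    ring
  have hall : ∀ a ∈ Ioi (0:ℝ), (f a - g a) / a = 0 := by
    intro a ha
    have h1 : Tendsto (fun T => (f T - g T) / T) (𝓝[>] 0) (𝓝 ((f a - g a) / a)) := by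
      apply tendsto_const_nhds.congr'
      filter_upwards [self_mem_nhdsWithin] with b hb
      exact hconst a ha b hb
    exact tendsto_nhds_unique h1 hlim
  intro T hT
  rcases hT.eq_or_lt with h1 | h1
  · rw [← h1, h00]
  · have := hall T h1
    rw [div_eq_zero_iff] at this
    rcases this with h2 | h2
    · linarith
    · exact absurd h2 h1.ne'

/-- **From profiles to subspaces of `L¹`.**  If `g` is differentiable on `[0, ∞)` with `g'(0) = 0`
and `g(T) - T g'(T) = κ L(T²)` with `L` completely monotone, `L(0) = 1`, then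
`(h, t) ↦ ‖h‖ g(|t| / ‖h‖)` is the norm of a linear image in `L¹[0,1]`. -/
theorem exists_embedding_of_profile {F : ℕ → ℝ → ℝ} (hF : IsCM F) (hF0 : F 0 0 = 1)
    {g g' : ℝ → ℝ} {κ : ℝ} (hκ : 0 < κ) (hg : ∀ T, 0 ≤ T → HasDerivAt g (g' T) T)
    (hg0 : g' 0 = 0) (hgF : ∀ T, 0 ≤ T → g T - T * g' T = κ * F 0 (T ^ 2)) :
    ∃ J : (HG × ℝ) →ₗ[ℝ] L1I, ∀ x : HG × ℝ, x.1 ≠ 0 → ‖J x‖ = ‖x.1‖ * g (|x.2| / ‖x.1‖) := by
  obtain ⟨μ, hμp, hpos, hL⟩ := exists_laplace hF hF0
  have hint := integrable_of_laplace hF hpos hL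
  let q : ℝ → ℝ := fun l => √(2 * l)
  have hq : Measurable q := by fun_prop
  let m : Measure ℝ := μ.map q
  have hmp : IsProbabilityMeasure m := Measure.isProbabilityMeasure_map hq.aemeasurable
  have hqi : Integrable q μ := by
    apply Integrable.mono' (g := fun l => 1 + |l|)
    · exact (integrable_const _).add hint.abs
    · exact hq.aestronglyMeasurable
    · filter_upwards [hpos] with l hl
      simp only [q]
      rw [Real.norm_of_nonneg (Real.sqrt_nonneg _), abs_of_nonneg hl]
      rw [Real.sqrt_le_left (by linarith)]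
      nlinarith
  have hm : Integrable (fun b => b) m := by
    rw [integrable_map_measure (by fun_prop) hq.aemeasurable]
    exact hqi
  have hLm : ∀ T : ℝ, ∫ b, Real.exp (-(b ^ 2 / 2 * T ^ 2)) ∂m = F 0 (T ^ 2) := by
    intro T
    rw [integral_map hq.aemeasurable (by fun_prop), ← hL (T ^ 2) (sq_nonneg T)]
    apply integral_congr_ae
    filter_upwards [hpos] with l hl
    simp only [q]
    rw [Real.sq_sqrt (by linarith)]
    congr 1
    ring
  set c : ℝ := κ * (√(2 * Real.pi) / 2) with hc
  have hpi : 0 < √(2 * Real.pi) := Real.sqrt_pos.2 (by positivity)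
  have hc0 : 0 ≤ c := by positivity
  -- the mixture equals the profile
  have hkey : ∀ T, 0 ≤ T → c * mix m T = g T := by
    apply ode_unique (f' := fun T => c * ∫ b, b * sgnG (b * T) ∂m) (g' := g')
    · intro T _
      exact (mix_hasDerivAt hm T).2.const_mul c
    · exact hg
    · intro T hT
      rw [hgF T hT]
      have := mix_sub hm T
      rw [hLm T] at this
      calc c * mix m T - T * (c * ∫ b, b * sgnG (b * T) ∂m)
          = c * (mix m T - T * ∫ b, b * sgnG (b * T) ∂m) := by ring
        _ = κ * F 0 (T ^ 2) := by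
            rw [this, hc]
            field_simp
    · simp [sgnG_zero, hg0]
  obtain ⟨J, hJ⟩ := exists_embedding hm c hc0
  refine ⟨J, ?_⟩
  intro x hx
  rw [hJ x]
  have hr : 0 < ‖x.1‖ := norm_pos_iff.2 hx
  rw [← hkey (|x.2| / ‖x.1‖) (by positivity)]
  unfold mix
  have e1 : ‖x.1‖ * (c * ∫ b, phi (b * (|x.2| / ‖x.1‖)) ∂m)
      = c * ∫ b, ‖x.1‖ * phi (b * (|x.2| / ‖x.1‖)) ∂m := by
    rw [integral_const_mul]
    ring
  rw [e1]
  congr 1
  congr 1
  funext b
  rw [gaussAbs_eq hr]
  congr 1
  rcases abs_cases x.2 with ⟨h1, _⟩ | ⟨h1, _⟩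
  · rw [h1]
    congr 1
    ring
  · rw [h1, ← phi_neg]
    congr 1
    ring

end

end Pool.Agent.Lib.MP_fe925f_an
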