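import Mathlib
import Pool.Agent.Lib.MP_fe925f_an.Profile
import Pool.Agent.Lib.MP_fe925f_an.Inverse

/-!
# The norm and the dual norm, as norms of subspaces of `L¹[0,1]`
-/

set_option autoImplicit false

namespace Pool.Agent.Lib.MP_fe925f_an

open MeasureTheory ProbabilityTheory Filter Topology Set

noncomputable section

/-- The profile of the norm. -/
def gP (s : ℝ) : ℝ := (1 / 2 + s ^ 2) / √(1 + s ^ 2)

/-- The profile of the dual norm. -/
def gD (T : ℝ) : ℝ := 2 * ((1 + psi (T ^ 2)) * √(1 + psi (T ^ 2)))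

lemma gP_hasDerivAt (s : ℝ) :
    HasDerivAt gP ((3 / 2 * s + s ^ 3) / ((1 + s ^ 2) * √(1 + s ^ 2))) s := by
  have a : 0 < 1 + s ^ 2 := by positivity
  have hs : 0 < √(1 + s ^ 2) := Real.sqrt_pos.2 a
  have hss : √(1 + s ^ 2) ^ 2 = 1 + s ^ 2 := Real.sq_sqrt a.le
  have h0 : HasDerivAt (fun s : ℝ => s ^ 2) (2 * s) s := by
    simpa using hasDerivAt_pow 2 s
  have h1 : HasDerivAt (fun s : ℝ => 1 / 2 + s ^ 2) (2 * s) s := h0.const_add _
  have h2 : HasDerivAt (fun s : ℝ => 1 + s ^ 2) (2 * s) s := h0.const_add _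
  have h3 := h2.sqrt a.ne'
  have h4 := h1.div h3 hs.ne'
  refine h4.congr_deriv ?_
  rw [hss]
  field_simp
  rw [hss]
  ring

lemma exists_embP : ∃ J : (HG × ℝ) →ₗ[ℝ] L1I, ∀ x : HG × ℝ, x.1 ≠ 0 →
    ‖J x‖ = ‖x.1‖ * gP (|x.2| / ‖x.1‖) := by
  apply exists_embedding_of_profile (κ := 1 / 2) isCM_famA _ (by norm_num)
    (fun T _ => gP_hasDerivAt T)
  · simp
  · intro T hT
    rw [famA_zero _ (sq_nonneg T)]
    unfold gP
    have a : 0 < 1 + T ^ 2 := by positivity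
    have hs : 0 < √(1 + T ^ 2) := Real.sqrt_pos.2 a
    field_simp
    ring
  · rw [famA_zero 0 le_rfl]
    simp

lemma gD_hasDerivAt (T : ℝ) :
    HasDerivAt gD (2 * T * √(1 + psi (T ^ 2)) / ((1 + 2 * psi (T ^ 2)) * (3 + 2 * psi (T ^ 2)))) T := by
  have hY : (0 : ℝ) ≤ T ^ 2 := sq_nonneg T
  have hy := psi_nonneg hY
  have hp := psi_hasDerivAt (Y := T ^ 2) (by linarith)
  have h0 : HasDerivAt (fun s : ℝ => s ^ 2) (2 * T) T := by
    simpa using hasDerivAt_pow 2 T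
  have h1 : HasDerivAt (fun T => psi (T ^ 2))
      ((3 * (1 + 2 * psi (T ^ 2)) * (3 + 2 * psi (T ^ 2)))⁻¹ * (2 * T)) T :=
    HasDerivAt.comp (h := fun s : ℝ => s ^ 2) T hp h0
  have h2 : HasDerivAt (fun T => 1 + psi (T ^ 2))
      ((3 * (1 + 2 * psi (T ^ 2)) * (3 + 2 * psi (T ^ 2)))⁻¹ * (2 * T)) T := h1.const_add 1
  set y := psi (T ^ 2) with hyd
  have a1 : 0 < 1 + y := by linarith
  have a2 : 0 < 1 + 2 * y := by linarith
  have a3 : 0 < 3 + 2 * y := by linarith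
  have hs : 0 < √(1 + y) := Real.sqrt_pos.2 a1
  have hss : √(1 + y) ^ 2 = 1 + y := Real.sq_sqrt a1.le
  have h3 := h2.sqrt (by rw [← hyd]; exact a1.ne')
  have h4 := (h2.mul h3).const_mul 2
  refine h4.congr_deriv ?_
  rw [← hyd]
  field_simp
  rw [hss]
  ring

lemma exists_embD : ∃ J : (HG × ℝ) →ₗ[ℝ] L1I, ∀ x : HG × ℝ, x.1 ≠ 0 →
    ‖J x‖ = ‖x.1‖ * gD (|x.2| / ‖x.1‖) := by
  obtain ⟨F, hF, hF0⟩ := cls_funB.isCM
  apply exists_embedding_of_profile (κ := 2) hF _ (by norm_num) (fun T _ => gD_hasDerivAt T)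
  · simp
  · intro T hT
    rw [hF0, funB_eq (sq_nonneg T)]
    have hY : (0 : ℝ) ≤ T ^ 2 := sq_nonneg T
    have hy := psi_nonneg hY
    have hc := cub_psi (Y := T ^ 2) (by linarith)
    unfold gD
    set y := psi (T ^ 2) with hyd
    unfold cub at hc
    have a1 : 0 < 1 + y := by linarith
    have a2 : 0 < 1 + 2 * y := by linarith
    have a3 : 0 < 3 + 2 * y := by linarith
    have e : T * (2 * T * √(1 + y) / ((1 + 2 * y) * (3 + 2 * y)))
        = 2 * (y * (3 + 2 * y)) * √(1 + y) / (1 + 2 * y) := by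
      have : T * (2 * T * √(1 + y) / ((1 + 2 * y) * (3 + 2 * y)))
        = 2 * T ^ 2 * √(1 + y) / ((1 + 2 * y) * (3 + 2 * y)) := by ring
      rw [this, ← hc]
      field_simp
    rw [e]
    field_simp
    ring
  · rw [hF0, funB_zero]

end

end Pool.Agent.Lib.MP_fe925f_an
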