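import Mathlib
import Pool.Agent.Lib.MP_fe925f_an.TwoNorms

/-!
# The Banach space
-/

set_option autoImplicit false

namespace Pool.Agent.Lib.MP_fe925f_an

open MeasureTheory ProbabilityTheory Filter Topology Set

noncomputable section

/-- The embedding giving the norm. -/
def JP : (HG × ℝ) →ₗ[ℝ] L1I := Classical.choose exists_embP

/-- The embedding giving the dual norm. -/
def JD : (HG × ℝ) →ₗ[ℝ] L1I := Classical.choose exists_embD

lemma norm_JP {x : HG × ℝ} (hx : x.1 ≠ 0) : ‖JP x‖ = ‖x.1‖ * gP (|x.2| / ‖x.1‖) :=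
  Classical.choose_spec exists_embP x hx

lemma norm_JD {x : HG × ℝ} (hx : x.1 ≠ 0) : ‖JD x‖ = ‖x.1‖ * gD (|x.2| / ‖x.1‖) :=
  Classical.choose_spec exists_embD x hx

/-- Extension of the formula to `h = 0`. -/
lemma norm_at_zero {J : (HG × ℝ) →ₗ[ℝ] L1I} {g : ℝ → ℝ} {C : ℝ}
    (hJ : ∀ x : HG × ℝ, x.1 ≠ 0 → ‖J x‖ = ‖x.1‖ * g (|x.2| / ‖x.1‖))
    (h1 : ∀ T, 0 ≤ T → T ≤ g T) (h2 : ∀ T, 0 ≤ T → g T ≤ T + C) (t : ℝ) :
    ‖J (0, t)‖ = |t| := by
  obtain ⟨e, he⟩ := HG_exists_unit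
  have key : ∀ r : ℝ, 0 < r → |‖J (0, t)‖ - (|t|)| ≤ 2 * (C * r) := by
    intro r hr
    have hre : ‖r • e‖ = r := by rw [norm_smul, he, Real.norm_of_nonneg hr.le, mul_one]
    have hne : r • e ≠ 0 := by
      rw [← norm_ne_zero_iff, hre]
      exact hr.ne'
    have e1 := hJ (r • e, t) hne
    have e2 := hJ (r • e, 0) hne
    simp only [hre, abs_zero, zero_div] at e1 e2
    have b1 := h1 (|t| / r) (by positivity)
    have b2 := h2 (|t| / r) (by positivity)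
    have b3 := h2 0 le_rfl
    have c1 : |t| ≤ ‖J (r • e, t)‖ := by
      rw [e1]
      calc |t| = r * (|t| / r) := by field_simp
        _ ≤ _ := by gcongr
    have c2 : ‖J (r • e, t)‖ ≤ |t| + C * r := by
      rw [e1]
      calc r * g (|t| / r) ≤ r * (|t| / r + C) := by gcongr
        _ = |t| + C * r := by field_simp
    have c3 : ‖J (r • e, 0)‖ ≤ C * r := by
      rw [e2]
      calc r * g 0 ≤ r * (0 + C) := by gcongr
        _ = C * r := by ring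
    have d1 : J (0, t) = J (r • e, t) - J (r • e, 0) := by
      rw [← map_sub]
      congr 1
      simp
    have d2 : |‖J (0, t)‖ - ‖J (r • e, t)‖| ≤ ‖J (r • e, 0)‖ := by
      have := abs_norm_sub_norm_le (J (0, t)) (J (r • e, t))
      rw [d1] at this ⊢
      simpa using this
    rw [abs_le] at d2 ⊢
    constructor <;> linarith [d2.1, d2.2]
  have h3 : |‖J (0, t)‖ - (|t|)| ≤ 0 := by
    have ht : Tendsto (fun r : ℝ => 2 * (C * r)) (𝓝[>] 0) (𝓝 0) := by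
      have : Tendsto (fun r : ℝ => 2 * (C * r)) (𝓝 0) (𝓝 (2 * (C * 0))) := by
        apply Continuous.tendsto
        fun_prop
      simp only [mul_zero] at this
      exact this.mono_left nhdsWithin_le_nhds
    apply ge_of_tendsto ht
    filter_upwards [self_mem_nhdsWithin] with r hr
    exact key r hr
  have h4 := abs_nonneg (‖J (0, t)‖ - |t|)
  have h5 := abs_eq_zero.1 (le_antisymm h3 h4)
  linarith

lemma gP_ge (T : ℝ) (hT : 0 ≤ T) : T ≤ gP T := by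
  unfold gP
  have a : 0 < 1 + T ^ 2 := by positivity
  rw [le_div_iff₀ (Real.sqrt_pos.2 a)]
  have : √(1 + T ^ 2) * √(1 + T ^ 2) = 1 + T ^ 2 := Real.mul_self_sqrt a.le
  nlinarith [sq_nonneg (T - √(1 + T ^ 2)), Real.sqrt_nonneg (1 + T ^ 2)]

lemma gP_le (T : ℝ) (hT : 0 ≤ T) : gP T ≤ T + 1 / 2 := by
  unfold gP
  have a : 0 < 1 + T ^ 2 := by positivity
  rw [div_le_iff₀ (Real.sqrt_pos.2 a)]
  have h1 : 1 ≤ √(1 + T ^ 2) := by
    rw [Real.one_le_sqrt]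
    nlinarith
  have h2 : T ≤ √(1 + T ^ 2) := by
    apply Real.le_sqrt_of_sq_le
    linarith
  nlinarith

/-- The main identity for `gD`. -/
lemma gD_param (s : ℝ) (hs : 0 ≤ s) :
    gD (3 * s + 2 * s ^ 3) = 2 * ((1 + s ^ 2) * √(1 + s ^ 2)) := by
  unfold gD
  have : psi ((3 * s + 2 * s ^ 3) ^ 2) = s ^ 2 := by
    have h1 : (3 * s + 2 * s ^ 3) ^ 2 = cub (s ^ 2) := by
      unfold cub
      ring
    rw [h1]
    apply psi_cub
    nlinarith [sq_nonneg s]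
  rw [this]

lemma exists_param (T : ℝ) (hT : 0 ≤ T) : ∃ s : ℝ, 0 ≤ s ∧ 3 * s + 2 * s ^ 3 = T := by
  have hc : ContinuousOn (fun s : ℝ => 3 * s + 2 * s ^ 3) (Icc 0 T) := by fun_prop
  have := intermediate_value_Icc hT hc
  have hmem : T ∈ Icc ((fun s : ℝ => 3 * s + 2 * s ^ 3) 0) ((fun s : ℝ => 3 * s + 2 * s ^ 3) T) := by
    simp only [mem_Icc]
    constructor
    · simpa using hT
    · have : 0 ≤ T ^ 3 := by positivity
      linarith
  obtain ⟨s, hs, hsT⟩ := this hmem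
  exact ⟨s, hs.1, hsT⟩

lemma gD_ge (T : ℝ) (hT : 0 ≤ T) : T ≤ gD T := by
  obtain ⟨s, hs, rfl⟩ := exists_param T hT
  rw [gD_param s hs]
  have a : 0 < 1 + s ^ 2 := by positivity
  have hss : √(1 + s ^ 2) ^ 2 = 1 + s ^ 2 := Real.sq_sqrt a.le
  apply le_of_sq_le_sq _ (by positivity)
  have : (2 * ((1 + s ^ 2) * √(1 + s ^ 2))) ^ 2 = 4 * (1 + s ^ 2) ^ 3 := by
    rw [mul_pow, mul_pow, hss]
    ring
  rw [this]
  nlinarith [sq_nonneg s]

lemma gD_le (T : ℝ) (hT : 0 ≤ T) : gD T ≤ T + 2 := by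
  obtain ⟨s, hs, rfl⟩ := exists_param T hT
  rw [gD_param s hs]
  have a : 0 < 1 + s ^ 2 := by positivity
  have hss : √(1 + s ^ 2) ^ 2 = 1 + s ^ 2 := Real.sq_sqrt a.le
  apply le_of_sq_le_sq _ (by positivity)
  have : (2 * ((1 + s ^ 2) * √(1 + s ^ 2))) ^ 2 = 4 * (1 + s ^ 2) ^ 3 := by
    rw [mul_pow, mul_pow, hss]
    ring
  rw [this]
  nlinarith [sq_nonneg s, mul_nonneg hs (sq_nonneg s), sq_nonneg (s - 1), mul_nonneg hs (sq_nonneg (s-1))]

lemma norm_JP_zero (t : ℝ) : ‖JP (0, t)‖ = |t| :=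
  norm_at_zero (C := 1 / 2) (fun x hx => norm_JP hx) gP_ge gP_le t

lemma norm_JD_zero (t : ℝ) : ‖JD (0, t)‖ = |t| :=
  norm_at_zero (C := 2) (fun x hx => norm_JD hx) gD_ge gD_le t

/-- The norm, explicitly. -/
lemma norm_JP_formula (x : HG × ℝ) (hx : x ≠ 0) :
    ‖JP x‖ = (‖x.1‖ ^ 2 / 2 + x.2 ^ 2) / √(‖x.1‖ ^ 2 + x.2 ^ 2) := by
  by_cases h : x.1 = 0
  · obtain ⟨h1, t⟩ := x
    simp only at h
    subst h
    have ht : t ≠ 0 := fun h => hx (by rw [h]; rfl)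
    rw [norm_JP_zero]
    simp only [norm_zero, ne_eq, OfNat.ofNat_ne_zero, not_false_eq_true, zero_pow, zero_div,
      zero_add]
    rw [Real.sqrt_sq_eq_abs, eq_div_iff (abs_ne_zero.2 ht), abs_mul_abs_self, sq]
  · rw [norm_JP h]
    have hr : 0 < ‖x.1‖ := norm_pos_iff.2 h
    unfold gP
    set r := ‖x.1‖
    have e1 : 1 + (|x.2| / r) ^ 2 = (r ^ 2 + x.2 ^ 2) / r ^ 2 := by
      rw [div_pow, sq_abs]
      field_simp
    rw [e1, Real.sqrt_div (by positivity), Real.sqrt_sq hr.le]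
    have hpos : 0 < √(r ^ 2 + x.2 ^ 2) := Real.sqrt_pos.2 (by positivity)
    rw [div_pow, sq_abs]
    field_simp

end

end Pool.Agent.Lib.MP_fe925f_an
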