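import Mathlib
import Pool.Agent.Lib.MP_fe925f_an.Space

/-!
# The counterexample
-/

set_option autoImplicit false

namespace Pool.Agent.Lib.MP_fe925f_an

open MeasureTheory ProbabilityTheory Filter Topology Set

noncomputable section

/-- The underlying vector space of the counterexample. -/
def XX : Type := HG × ℝ

instance : AddCommGroup XX := inferInstanceAs (AddCommGroup (HG × ℝ))
instance : Module ℝ XX := inferInstanceAs (Module ℝ (HG × ℝ))

/-- The two components. -/
def toPair : XX ≃ₗ[ℝ] (HG × ℝ) := LinearEquiv.refl ℝ (HG × ℝ)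

/-- The embedding of `XX` -/
def JX : XX →ₗ[ℝ] L1I := JP.comp toPair.toLinearMap

lemma norm_JX (x : XX) (hx : x ≠ 0) : ‖JX x‖ =
    (‖(toPair x).1‖ ^ 2 / 2 + (toPair x).2 ^ 2) / √(‖(toPair x).1‖ ^ 2 + (toPair x).2 ^ 2) := by
  show ‖JP (toPair x)‖ = _
  apply norm_JP_formula
  simpa using hx

lemma pair_pos {x : XX} (hx : x ≠ 0) : 0 < ‖(toPair x).1‖ ^ 2 + (toPair x).2 ^ 2 := by
  have h : toPair x ≠ 0 := by simpa using hx
  by_contra hcon
  push Not at hcon
  have h1 := sq_nonneg ‖(toPair x).1‖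
  have h2 := sq_nonneg (toPair x).2
  have h3 : ‖(toPair x).1‖ ^ 2 = 0 := by linarith
  have h4 : (toPair x).2 ^ 2 = 0 := by linarith
  apply h
  ext1
  · exact norm_eq_zero.1 (pow_eq_zero_iff (by norm_num) |>.1 h3)
  · exact pow_eq_zero_iff (by norm_num) |>.1 h4

lemma JX_injective : Function.Injective JX := by
  rw [← LinearMap.ker_eq_bot, LinearMap.ker_eq_bot']
  intro x hx
  by_contra hne
  have h1 := norm_JX x hne
  rw [hx, norm_zero] at h1
  have h2 := pair_pos hne
  have h3 : 0 < (‖(toPair x).1‖ ^ 2 / 2 + (toPair x).2 ^ 2) /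
      √(‖(toPair x).1‖ ^ 2 + (toPair x).2 ^ 2) := by
    apply div_pos _ (Real.sqrt_pos.2 h2)
    have h4 := sq_nonneg ‖(toPair x).1‖
    have h5 := sq_nonneg (toPair x).2
    linarith
  linarith

instance : NormedAddCommGroup XX := NormedAddCommGroup.induced XX L1I JX JX_injective
instance : NormedSpace ℝ XX := NormedSpace.induced ℝ XX L1I JX

lemma norm_XX (x : XX) : ‖x‖ = ‖JX x‖ := rfl

lemma norm_XX_formula (x : XX) (hx : x ≠ 0) : ‖x‖ =
    (‖(toPair x).1‖ ^ 2 / 2 + (toPair x).2 ^ 2) / √(‖(toPair x).1‖ ^ 2 + (toPair x).2 ^ 2) :=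
  norm_JX x hx

/-- comparison with the sup norm on the pair -/
lemma norm_le_pair (x : XX) : ‖x‖ ≤ 2 * ‖toPair x‖ := by
  by_cases hx : x = 0
  · subst hx
    simp
  rw [norm_XX_formula x hx, div_le_iff₀ (Real.sqrt_pos.2 (pair_pos hx))]
  have hp := pair_pos hx
  set a := ‖(toPair x).1‖
  set t := (toPair x).2
  have ha : 0 ≤ a := norm_nonneg _
  have h1 : a ≤ ‖toPair x‖ := norm_fst_le _
  have h2 : |t| ≤ ‖toPair x‖ := norm_snd_le (toPair x)
  have h3 : √(a ^ 2 + t ^ 2) * √(a ^ 2 + t ^ 2) = a ^ 2 + t ^ 2 := Real.mul_self_sqrt hp.le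
  have h4 : √(a ^ 2 + t ^ 2) ≤ a + |t| := by
    rw [Real.sqrt_le_left (by positivity)]
    nlinarith [sq_abs t, mul_nonneg ha (abs_nonneg t)]
  have h5 : 0 ≤ √(a ^ 2 + t ^ 2) := Real.sqrt_nonneg _
  calc a ^ 2 / 2 + t ^ 2 ≤ √(a ^ 2 + t ^ 2) * √(a ^ 2 + t ^ 2) := by
        rw [h3]; nlinarith [sq_nonneg a]
    _ ≤ (2 * ‖toPair x‖) * √(a ^ 2 + t ^ 2) := by
        apply mul_le_mul_of_nonneg_right _ h5
        linarith

lemma pair_le_norm (x : XX) : ‖toPair x‖ ≤ 2 * ‖x‖ := by
  by_cases hx : x = 0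
  · subst hx
    simp
  have hp := pair_pos hx
  have hs : 0 < √(‖(toPair x).1‖ ^ 2 + (toPair x).2 ^ 2) := Real.sqrt_pos.2 hp
  have h0 : √(‖(toPair x).1‖ ^ 2 + (toPair x).2 ^ 2) ≤ 2 * ‖x‖ := by
    rw [norm_XX_formula x hx, ← mul_div_assoc, le_div_iff₀ hs, Real.mul_self_sqrt hp.le]
    nlinarith [sq_nonneg (toPair x).2]
  refine le_trans ?_ h0
  rw [Prod.norm_def]
  apply max_le
  · apply Real.le_sqrt_of_sq_le
    nlinarith [sq_nonneg (toPair x).2]
  · rw [Real.norm_eq_abs]
    apply Real.le_sqrt_of_sq_le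
    rw [sq_abs]
    nlinarith [sq_nonneg ‖(toPair x).1‖]

/-- The identity map, as a continuous linear equivalence. -/
def equivXX : XX ≃L[ℝ] (HG × ℝ) :=
  LinearEquiv.toContinuousLinearEquivOfBounds toPair 2 2 pair_le_norm (fun y => by
    have := norm_le_pair (toPair.symm y)
    simpa using this)

instance : CompleteSpace XX :=
  (completeSpace_congr (e := equivXX.toEquiv) equivXX.isUniformEmbedding).2 inferInstance

lemma XX_infinite : ¬ FiniteDimensional ℝ XX := by
  intro h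
  apply HG_infinite
  have h1 : FiniteDimensional ℝ (HG × ℝ) := LinearEquiv.finiteDimensional toPair
  exact Module.Finite.of_surjective (LinearMap.fst ℝ HG ℝ) LinearMap.fst_surjective

/-- `XX` embeds in `L¹[0,1]`. -/
def embX : XX →ₗᵢ[ℝ] L1I where
  toLinearMap := JX
  norm_map' _ := rfl

/-- `XX` is not a Hilbert space. -/
lemma XX_not_hilbert {H : Type*} [NormedAddCommGroup H] [InnerProductSpace ℝ H]
    (e : XX ≃ₗᵢ[ℝ] H) : False := by
  obtain ⟨u, hu⟩ := HG_exists_unit
  let x : XX := toPair.symm (u, 0)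
  let y : XX := toPair.symm (0, 1)
  have hpl := parallelogram_law_with_norm ℝ (e x) (e y)
  rw [← map_add, ← map_sub, e.norm_map, e.norm_map, e.norm_map, e.norm_map] at hpl
  have hu0 : u ≠ 0 := by
    rw [← norm_ne_zero_iff, hu]; norm_num
  have hxp : toPair x = (u, 0) := by simp [x]
  have hyp : toPair y = (0, 1) := by simp [y]
  have hx : ‖x‖ = 1 / 2 := by
    rw [norm_XX_formula, hxp]
    · simp [hu]
    · intro h
      rw [h, map_zero] at hxp
      exact hu0 (congrArg Prod.fst hxp).symm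
  have hy : ‖y‖ = 1 := by
    rw [norm_XX_formula, hyp]
    · simp
    · intro h
      rw [h, map_zero] at hyp
      exact one_ne_zero (congrArg Prod.snd hyp).symm
  have hsum : toPair (x + y) = (u, 1) := by rw [map_add, hxp, hyp]; simp
  have hsub : toPair (x - y) = (u, -1) := by rw [map_sub, hxp, hyp]; simp
  have hxy : ‖x + y‖ ^ 2 = 9 / 8 := by
    rw [norm_XX_formula, hsum]
    · simp only [hu]
      rw [div_pow, Real.sq_sqrt (by norm_num)]
      norm_num
    · intro h
      rw [h, map_zero] at hsum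
      exact hu0 (congrArg Prod.fst hsum).symm
  have hxy2 : ‖x - y‖ ^ 2 = 9 / 8 := by
    rw [norm_XX_formula, hsub]
    · simp only [hu]
      rw [div_pow, Real.sq_sqrt (by norm_num)]
      norm_num
    · intro h
      rw [h, map_zero] at hsub
      exact hu0 (congrArg Prod.fst hsub).symm
  rw [hx, hy] at hpl
  nlinarith

/-! ### The dual space -/

/-- The inclusion `h ↦ (h, 0)`. -/
def incl : HG →L[ℝ] XX :=
  (equivXX.symm : (HG × ℝ) →L[ℝ] XX).comp (ContinuousLinearMap.inl ℝ HG ℝ)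

/-- The vector `(0, 1)`. -/
def oneX : XX := toPair.symm (0, 1)

/-- The pair `(h', t')` representing a functional. -/
def rep : StrongDual ℝ XX →ₗ[ℝ] (HG × ℝ) where
  toFun φ := ((InnerProductSpace.toDual ℝ HG).symm (φ.comp incl), φ oneX)
  map_add' φ ψ := by
    ext1
    · simp only [ContinuousLinearMap.add_comp, map_add, Prod.fst_add]
    · simp
  map_smul' c φ := by
    ext1
    · simp only [ContinuousLinearMap.smul_comp, RingHom.id_apply, Prod.smul_fst]
      rw [map_smulₛₗ]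
      simp
    · simp

lemma rep_apply (φ : StrongDual ℝ XX) (x : XX) :
    φ x = inner ℝ (rep φ).1 (toPair x).1 + (rep φ).2 * (toPair x).2 := by
  have h1 : inner ℝ (rep φ).1 (toPair x).1 = φ (incl (toPair x).1) := by
    show inner ℝ ((InnerProductSpace.toDual ℝ HG).symm (φ.comp incl)) (toPair x).1 = _
    rw [InnerProductSpace.toDual_symm_apply]
    rfl
  have h2 : (rep φ).2 * (toPair x).2 = φ ((toPair x).2 • oneX) := by
    rw [map_smul, smul_eq_mul, mul_comm]
    rfl
  rw [h1, h2, ← map_add]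
  congr 1
  apply toPair.injective
  rw [map_add, map_smul]
  have h3 : toPair (incl (toPair x).1) = ((toPair x).1, 0) := by
    show toPair (toPair.symm ((toPair x).1, 0)) = _
    simp
  have h4 : toPair oneX = (0, 1) := by simp [oneX]
  rw [h3, h4]
  ext1 <;> simp

/-- The basic inequality (with equality for `t = s r`). -/
lemma key_ineq {r t s : ℝ} (hrt : 0 < r ^ 2 + t ^ 2) :
    r + (3 * s + 2 * s ^ 3) * t ≤
      2 * ((1 + s ^ 2) * √(1 + s ^ 2)) * ((r ^ 2 / 2 + t ^ 2) / √(r ^ 2 + t ^ 2)) := by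
  set R := √(r ^ 2 + t ^ 2) with hR
  set S := √(1 + s ^ 2) with hS
  have hR0 : 0 < R := Real.sqrt_pos.2 hrt
  have hS0 : 0 < S := Real.sqrt_pos.2 (by positivity)
  have hR2 : R ^ 2 = r ^ 2 + t ^ 2 := Real.sq_sqrt hrt.le
  have hS2 : S ^ 2 = 1 + s ^ 2 := Real.sq_sqrt (by positivity)
  rw [← mul_div_assoc, le_div_iff₀ hR0, ← hS2]
  -- it remains to show (r + (3 s + 2 s^3) t) R ≤ 2 S^3 (r²/2 + t²)
  have h1 : 2 * (S ^ 2 * S) * (r ^ 2 / 2 + t ^ 2) = S * (S ^ 2 * (R ^ 2 + t ^ 2)) := by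
    rw [hR2]; ring
  rw [h1]
  -- 2 r R ≤ S r² + R² / S
  have h2 : r * R * (2 * S) ≤ S ^ 2 * r ^ 2 + R ^ 2 := by nlinarith [sq_nonneg (S * r - R)]
  have h3 : s * t * R * (2 * S) ≤ s ^ 2 * R ^ 2 + S ^ 2 * t ^ 2 := by
    nlinarith [sq_nonneg (s * R - S * t)]
  have hst : 0 ≤ s ^ 2 := sq_nonneg s
  have hmain : (r + (3 * s + 2 * s ^ 3) * t) * R * (2 * S) ≤ S * (S ^ 2 * (R ^ 2 + t ^ 2)) * (2 * S) := by
    have e1 : (r + (3 * s + 2 * s ^ 3) * t) * R * (2 * S)
        = r * R * (2 * S) + (3 + 2 * s ^ 2) * (s * t * R * (2 * S)) := by ring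
    have e2 : (3 + 2 * s ^ 2) * (s * t * R * (2 * S))
        ≤ (3 + 2 * s ^ 2) * (s ^ 2 * R ^ 2 + S ^ 2 * t ^ 2) := by
      apply mul_le_mul_of_nonneg_left h3
      positivity
    have e3 : S * (S ^ 2 * (R ^ 2 + t ^ 2)) * (2 * S) = 2 * (S ^ 2) ^ 2 * (R ^ 2 + t ^ 2) := by ring
    rw [e1, e3]
    have e4 : S ^ 2 * r ^ 2 + R ^ 2 + (3 + 2 * s ^ 2) * (s ^ 2 * R ^ 2 + S ^ 2 * t ^ 2)
        = 2 * (S ^ 2) ^ 2 * (R ^ 2 + t ^ 2) := by
      rw [hR2, hS2]
      ring
    linarith
  exact le_of_mul_le_mul_right hmain (by positivity)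

lemma norm_oneX : ‖oneX‖ = 1 := by
  have h : toPair oneX = (0, 1) := by simp [oneX]
  rw [norm_XX_formula, h]
  · simp
  · intro h0
    rw [h0, map_zero] at h
    exact one_ne_zero (congrArg Prod.snd h).symm

/-- The dual norm is the norm of `JD`. -/
theorem dual_norm (φ : StrongDual ℝ XX) : ‖JD (rep φ)‖ = ‖φ‖ := by
  by_cases h0 : (rep φ).1 = 0
  · -- the functional `t' t`
    have e1 : ‖JD (rep φ)‖ = |(rep φ).2| := by
      rw [← norm_JD_zero]
      congr 2
      ext1
      · exact h0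
      · rfl
    rw [e1]
    apply le_antisymm
    · have := φ.le_opNorm oneX
      rw [norm_oneX, mul_one] at this
      exact this
    · apply ContinuousLinearMap.opNorm_le_bound _ (abs_nonneg _)
      intro x
      rw [rep_apply, h0, inner_zero_left, zero_add, Real.norm_eq_abs, abs_mul]
      apply mul_le_mul_of_nonneg_left _ (abs_nonneg _)
      by_cases hx : x = 0
      · subst hx
        simp
      have hp := pair_pos hx
      rw [norm_XX_formula x hx, le_div_iff₀ (Real.sqrt_pos.2 hp)]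
      set r := ‖(toPair x).1‖
      set t := (toPair x).2
      have h3 : √(r ^ 2 + t ^ 2) ^ 2 = r ^ 2 + t ^ 2 := Real.sq_sqrt hp.le
      nlinarith [sq_nonneg (|t| - √(r ^ 2 + t ^ 2)), sq_abs t, abs_nonneg t]
  · have hr' : 0 < ‖(rep φ).1‖ := norm_pos_iff.2 h0
    obtain ⟨s, hs, hsT⟩ := exists_param (|(rep φ).2| / ‖(rep φ).1‖) (by positivity)
    have e1 : ‖JD (rep φ)‖ = ‖(rep φ).1‖ * (2 * ((1 + s ^ 2) * √(1 + s ^ 2))) := by
      rw [norm_JD h0, ← hsT, gD_param s hs]
    have e2 : |(rep φ).2| = ‖(rep φ).1‖ * (3 * s + 2 * s ^ 3) := by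
      rw [hsT]
      field_simp
    rw [e1]
    have hS : 0 < √(1 + s ^ 2) := Real.sqrt_pos.2 (by positivity)
    have hS2 : √(1 + s ^ 2) ^ 2 = 1 + s ^ 2 := Real.sq_sqrt (by positivity)
    apply le_antisymm
    · -- test vector
      let σ : ℝ := if 0 ≤ (rep φ).2 then 1 else -1
      have hσ : σ * (rep φ).2 = |(rep φ).2| := by
        simp only [σ]
        split_ifs with h
        · rw [abs_of_nonneg h, one_mul]
        · push Not at h
          rw [abs_of_neg h, neg_one_mul]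
      have hσ2 : σ ^ 2 = 1 := by
        simp only [σ]
        split_ifs <;> norm_num
      let x : XX := toPair.symm ((‖(rep φ).1‖⁻¹) • (rep φ).1, σ * s)
      have hxp : toPair x = ((‖(rep φ).1‖⁻¹) • (rep φ).1, σ * s) := by simp [x]
      have hn1 : ‖(‖(rep φ).1‖⁻¹) • (rep φ).1‖ = 1 := by
        rw [norm_smul, norm_inv, norm_norm]
        field_simp
      have hx0 : x ≠ 0 := by
        intro h
        rw [h, map_zero] at hxp
        have := congrArg Prod.fst hxp
        simp only [Prod.fst_zero] at this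
        rw [← this, norm_zero] at hn1
        norm_num at hn1
      have hxn : ‖x‖ = (1 / 2 + s ^ 2) / √(1 + s ^ 2) := by
        rw [norm_XX_formula x hx0, hxp]
        simp only [hn1]
        rw [mul_pow, hσ2]
        norm_num
      have hφx : φ x = ‖(rep φ).1‖ + |(rep φ).2| * s := by
        rw [rep_apply, hxp]
        simp only
        have hin : inner ℝ (rep φ).1 ((‖(rep φ).1‖⁻¹) • (rep φ).1) = ‖(rep φ).1‖ := by
          have h5 := real_inner_smul_right (rep φ).1 (rep φ).1 (‖(rep φ).1‖⁻¹)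
          refine h5.trans ?_
          rw [real_inner_self_eq_norm_sq]
          field_simp
        rw [hin, ← hσ]
        ring
      have hle := φ.le_opNorm x
      rw [Real.norm_eq_abs, hφx, abs_of_nonneg (by positivity), hxn, e2] at hle
      have hpos : 0 < (1 / 2 + s ^ 2) / √(1 + s ^ 2) := by positivity
      have e3 : ‖(rep φ).1‖ + ‖(rep φ).1‖ * (3 * s + 2 * s ^ 3) * s
          = ‖(rep φ).1‖ * (2 * ((1 + s ^ 2) * √(1 + s ^ 2))) * ((1 / 2 + s ^ 2) / √(1 + s ^ 2)) := by
        field_simp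
        ring
      rw [e3] at hle
      exact le_of_mul_le_mul_right hle hpos
    · apply ContinuousLinearMap.opNorm_le_bound _ (by positivity)
      intro x
      by_cases hx : x = 0
      · subst hx
        simp
      have hp := pair_pos hx
      rw [norm_XX_formula x hx, rep_apply, Real.norm_eq_abs]
      have hk := key_ineq (r := ‖(toPair x).1‖) (t := |(toPair x).2|) (s := s)
        (by rw [sq_abs]; exact hp)
      rw [sq_abs] at hk
      calc |inner ℝ (rep φ).1 (toPair x).1 + (rep φ).2 * (toPair x).2|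
          ≤ |inner ℝ (rep φ).1 (toPair x).1| + |(rep φ).2 * (toPair x).2| := abs_add_le _ _
        _ ≤ ‖(rep φ).1‖ * ‖(toPair x).1‖ + |(rep φ).2| * |(toPair x).2| := by
            rw [abs_mul]
            gcongr
            exact abs_real_inner_le_norm _ _
        _ = ‖(rep φ).1‖ * (‖(toPair x).1‖ + (3 * s + 2 * s ^ 3) * |(toPair x).2|) := by
            rw [e2]; ring
        _ ≤ ‖(rep φ).1‖ * (2 * ((1 + s ^ 2) * √(1 + s ^ 2)) *
            ((‖(toPair x).1‖ ^ 2 / 2 + (toPair x).2 ^ 2) /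
              √(‖(toPair x).1‖ ^ 2 + (toPair x).2 ^ 2))) := by
            gcongr
        _ = _ := by ring

/-- The dual of `XX` embeds in `L¹[0,1]`. -/
def embDual : StrongDual ℝ XX →ₗᵢ[ℝ] L1I where
  toLinearMap := JD.comp rep
  norm_map' φ := dual_norm φ

end

end Pool.Agent.Lib.MP_fe925f_an
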